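import Pool.Agent.Helper25.KV.Goals

/-!
# Project KV (`MP_66be51_an`), packet NOTH1: the wave packets keep the solution out of `H^1`.
-/

namespace Pool.Agent.Helper75.KV

open Real MeasureTheory Set Filter Topology
open scoped ENNReal
open Pool.Agent.Helper25.KV

/-- The first block of facts on the bump. -/
structure Bump (D : ℝ) : Prop where
  smooth : ContDiff ℝ (⊤ : ℕ∞) bmp
  nonneg : ∀ y, 0 ≤ bmp y
  le_one : ∀ y, bmp y ≤ 1
  off : ∀ y, 1 ≤ |y| → bmp y = 0
  one : ∀ y, |y| ≤ 1 / 2 → bmp y = 1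
  der : ∀ y, |deriv bmp y| ≤ D

/-- General test packet. -/
noncomputable def th (a w P ψ r x : ℝ) : ℝ :=
  bmp ((x + 4 * a) / w) * Real.sin (P * x + ψ) / r

/-- General packet. -/
noncomputable def pp (a w P ψ r x : ℝ) : ℝ :=
  bmp ((x + 4 * a) / w) * Real.cos (P * x + ψ) / (P * r)

section

variable {D a w P ψ r : ℝ}

theorem th_contDiff (hB : Bump D) : ContDiff ℝ (⊤ : ℕ∞) (th a w P ψ r) := by
  unfold th
  apply ContDiff.div_const
  apply ContDiff.mul
  · exact hB.smooth.comp ((contDiff_id.add contDiff_const).div_const _)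
  · exact Real.contDiff_sin.comp ((contDiff_const.mul contDiff_id).add contDiff_const)

theorem th_off (hB : Bump D) (hw : 0 < w) {x : ℝ} (hx : w ≤ |x + 4 * a|) :
    th a w P ψ r x = 0 := by
  unfold th
  rw [hB.off _ (by rw [abs_div, abs_of_pos hw, le_div_iff₀ hw]; linarith)]
  simp

theorem mem_I {x : ℝ} (hx : x ∉ Icc (-4 * a - w) (-4 * a + w)) : w < |x + 4 * a| := by
  by_contra h
  push Not at h
  rw [abs_le] at h
  exact hx ⟨by linarith [h.1], by linarith [h.2]⟩

theorem th_supp (hB : Bump D) (hw : 0 < w) : HasCompactSupport (th a w P ψ r) := by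
  apply HasCompactSupport.intro (isCompact_Icc (a := -4 * a - w) (b := -4 * a + w))
  intro x hx
  exact th_off hB hw (mem_I hx).le

theorem th_deriv (hB : Bump D) (x : ℝ) :
    deriv (th a w P ψ r) x = (deriv bmp ((x + 4 * a) / w) / w * Real.sin (P * x + ψ)
      + bmp ((x + 4 * a) / w) * (Real.cos (P * x + ψ) * P)) / r := by
  have h1 : HasDerivAt (fun x : ℝ => (x + 4 * a) / w) (1 / w) x :=
    ((hasDerivAt_id x).add_const (4 * a)).div_const w
  have h2 : HasDerivAt bmp (deriv bmp ((x + 4 * a) / w)) ((x + 4 * a) / w) :=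
    (hB.smooth.differentiable (by simp) _).hasDerivAt
  have h3 : HasDerivAt (fun x : ℝ => bmp ((x + 4 * a) / w))
      (deriv bmp ((x + 4 * a) / w) * (1 / w)) x :=
    HasDerivAt.comp (h₂ := bmp) (h := fun x : ℝ => (x + 4 * a) / w) x h2 h1
  have h4 : HasDerivAt (fun x : ℝ => P * x + ψ) P x := by
    simpa using ((hasDerivAt_id x).const_mul P).add_const ψ
  have h5 : HasDerivAt (fun x : ℝ => Real.sin (P * x + ψ)) (Real.cos (P * x + ψ) * P) x :=
    h4.sin
  have h6 : HasDerivAt (th a w P ψ r) ((deriv bmp ((x + 4 * a) / w) * (1 / w) *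
      Real.sin (P * x + ψ) + bmp ((x + 4 * a) / w) * (Real.cos (P * x + ψ) * P)) / r) x :=
    (h3.mul h5).div_const r
  rw [h6.deriv]
  ring

theorem th_deriv_off (hB : Bump D) (hw : 0 < w) {x : ℝ} (hx : w < |x + 4 * a|) :
    deriv (th a w P ψ r) x = 0 := by
  have ho : IsOpen {x : ℝ | w < |x + 4 * a|} :=
    isOpen_lt continuous_const (by fun_prop)
  have h : th a w P ψ r =ᶠ[𝓝 x] fun _ => (0:ℝ) := by
    filter_upwards [ho.mem_nhds hx] with y hy
    exact th_off hB hw (le_of_lt hy)
  rw [h.deriv_eq]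
  simp

theorem th_abs (hB : Bump D) (hr : 0 < r) (x : ℝ) : |th a w P ψ r x| ≤ 1 / r := by
  unfold th
  rw [abs_div, abs_of_pos hr, abs_mul]
  gcongr
  have h1 : |bmp ((x + 4 * a) / w)| ≤ 1 := by
    rw [abs_of_nonneg (hB.nonneg _)]; exact hB.le_one _
  calc |bmp ((x + 4 * a) / w)| * |Real.sin (P * x + ψ)| ≤ 1 * 1 := by
        gcongr
        exact Real.abs_sin_le_one _
    _ = 1 := one_mul _

theorem D_nonneg (hB : Bump D) : 0 ≤ D := (abs_nonneg _).trans (hB.der 0)

theorem th_deriv_abs (hB : Bump D) (hw : 1 ≤ w) (hP : 1 ≤ P) (hr : 0 < r) (x : ℝ) :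
    |deriv (th a w P ψ r) x| ≤ (D + 1) * P / r := by
  have hD := D_nonneg hB
  have hw0 : 0 < w := by linarith
  have hP0 : 0 < P := by linarith
  rw [th_deriv hB, abs_div, abs_of_pos hr]
  gcongr
  have h1 : |bmp ((x + 4 * a) / w)| ≤ 1 := by
    rw [abs_of_nonneg (hB.nonneg _)]; exact hB.le_one _
  have h2 : |deriv bmp ((x + 4 * a) / w) / w * Real.sin (P * x + ψ)| ≤ D * P := by
    rw [abs_mul, abs_div, abs_of_pos hw0]
    calc |deriv bmp ((x + 4 * a) / w)| / w * |Real.sin (P * x + ψ)| ≤ D / 1 * 1 := by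
          gcongr
          · exact hB.der _
          · exact Real.abs_sin_le_one _
      _ = D * 1 := by ring
      _ ≤ D * P := by gcongr
  have h3 : |bmp ((x + 4 * a) / w) * (Real.cos (P * x + ψ) * P)| ≤ P := by
    rw [abs_mul, abs_mul, abs_of_pos hP0]
    calc |bmp ((x + 4 * a) / w)| * (|Real.cos (P * x + ψ)| * P) ≤ 1 * (1 * P) := by
          gcongr
          exact Real.abs_cos_le_one _
      _ = P := by ring
  calc _ ≤ _ := abs_add_le _ _
    _ ≤ D * P + P := add_le_add h2 h3
    _ = (D + 1) * P := by ring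

/-- Integral of a continuous function with values at most `K` on the interval, zero off it. -/
theorem int_le {f : ℝ → ℝ} {K : ℝ} (hw : 0 < w) (hf : Continuous f) (hfs : HasCompactSupport f)
    (h1 : ∀ x, f x ≤ K) (h2 : ∀ x, w < |x + 4 * a| → f x = 0) : ∫ x, f x ≤ K * (2 * w) := by
  have hI : MeasurableSet (Icc (-4 * a - w) (-4 * a + w)) := measurableSet_Icc
  have hint : Integrable (indicator (Icc (-4 * a - w) (-4 * a + w)) fun _ : ℝ => K) := by
    rw [integrable_indicator_iff hI]
    exact continuous_const.integrableOn_Icc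
  have h3 : ∫ x, f x ≤ ∫ x, indicator (Icc (-4 * a - w) (-4 * a + w)) (fun _ : ℝ => K) x := by
    apply integral_mono (hf.integrable_of_hasCompactSupport hfs) hint
    intro x
    by_cases hx : x ∈ Icc (-4 * a - w) (-4 * a + w)
    · simp only [indicator_of_mem hx]; exact h1 x
    · simp only [indicator_of_notMem hx]; rw [h2 x (mem_I hx)]
  refine h3.trans (le_of_eq ?_)
  rw [integral_indicator hI, setIntegral_const, smul_eq_mul, Real.volume_real_Icc_of_le
    (by linarith)]
  ring

theorem th_deriv_cont (hB : Bump D) : Continuous (deriv (th a w P ψ r)) :=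
  (th_contDiff hB).continuous_deriv (by simp)

theorem th_int_sq (hB : Bump D) (hw : 0 < w) (hr : 0 < r) (hrw : r ^ 2 = w) :
    ∫ x, th a w P ψ r x ^ 2 ≤ 2 := by
  have h := int_le (a := a) (w := w) (K := 1 / w) hw (f := fun x => th a w P ψ r x ^ 2)
    ((th_contDiff hB).continuous.pow 2)
    (by
      have : (fun x => th a w P ψ r x ^ 2) = fun x => th a w P ψ r x * th a w P ψ r x := by
        funext x; ring
      rw [this]
      exact (th_supp hB hw).mul_right)
    (by
      intro x
      have h1 := th_abs (a := a) (w := w) (P := P) (ψ := ψ) hB hr x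
      have h2 : |th a w P ψ r x| ^ 2 ≤ (1 / r) ^ 2 := by gcongr
      have h3 : (1 / r) ^ 2 = 1 / w := by rw [one_div_pow, hrw]
      rw [sq_abs, h3] at h2
      exact h2)
    (by
      intro x hx
      rw [th_off hB hw hx.le]
      simp)
  refine h.trans (le_of_eq ?_)
  field_simp

theorem th_int_deriv_sq (hB : Bump D) (hw : 1 ≤ w) (hP : 1 ≤ P) (hr : 0 < r) (hrw : r ^ 2 = w) :
    ∫ x, deriv (th a w P ψ r) x ^ 2 ≤ 2 * (D + 1) ^ 2 * P ^ 2 := by
  have hw0 : 0 < w := by linarith
  have h := int_le (a := a) (w := w) (K := (D + 1) ^ 2 * P ^ 2 / w) hw0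
    (f := fun x => deriv (th a w P ψ r) x ^ 2)
    ((th_deriv_cont hB).pow 2)
    (by
      have : (fun x => deriv (th a w P ψ r) x ^ 2) =
          fun x => deriv (th a w P ψ r) x * deriv (th a w P ψ r) x := by
        funext x; ring
      rw [this]
      exact ((th_supp hB hw0).deriv).mul_right)
    (by
      intro x
      have h1 := th_deriv_abs (a := a) (ψ := ψ) hB hw hP hr x
      have h2 : |deriv (th a w P ψ r) x| ^ 2 ≤ ((D + 1) * P / r) ^ 2 := by gcongr
      rw [sq_abs] at h2
      rw [div_pow, mul_pow, hrw] at h2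
      exact h2)
    (by
      intro x hx
      rw [th_deriv_off hB hw0 hx]
      simp)
  refine h.trans (le_of_eq ?_)
  field_simp

/-- The main integral. -/
theorem main_int (hB : Bump D) (hw : 1 ≤ w) (hP : 1 ≤ P) (hr : 0 < r) (hrw : r ^ 2 = w) :
    1 / 2 - 1 / (2 * P) - 2 * D / P ≤ ∫ x, pp a w P ψ r x * deriv (th a w P ψ r) x := by
  have hD := D_nonneg hB
  have hw0 : 0 < w := by linarith
  have hP0 : 0 < P := by linarith
  have hI : MeasurableSet (Icc (-4 * a - w) (-4 * a + w)) := measurableSet_Icc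
  have hJ : MeasurableSet (Icc (-4 * a - w / 2) (-4 * a + w / 2)) := measurableSet_Icc
  have hcc : Continuous fun x : ℝ => Real.cos (P * x + ψ) ^ 2 / w := by fun_prop
  have i1 : Integrable (indicator (Icc (-4 * a - w / 2) (-4 * a + w / 2))
      fun x : ℝ => Real.cos (P * x + ψ) ^ 2 / w) := by
    rw [integrable_indicator_iff hJ]
    exact hcc.integrableOn_Icc
  have i2 : Integrable (indicator (Icc (-4 * a - w) (-4 * a + w))
      fun _ : ℝ => D / (w ^ 2 * P)) := by
    rw [integrable_indicator_iff hI]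
    exact continuous_const.integrableOn_Icc
  have hppc : Continuous (pp a w P ψ r) := by
    have hb := hB.smooth.continuous
    unfold pp
    fun_prop
  have i3 : Integrable (fun x => pp a w P ψ r x * deriv (th a w P ψ r) x) :=
    (hppc.mul (th_deriv_cont hB)).integrable_of_hasCompactSupport
      ((th_supp hB hw0).deriv).mul_left
  have hmono : ∫ x, (indicator (Icc (-4 * a - w / 2) (-4 * a + w / 2))
      (fun x : ℝ => Real.cos (P * x + ψ) ^ 2 / w) x -
      indicator (Icc (-4 * a - w) (-4 * a + w)) (fun _ : ℝ => D / (w ^ 2 * P)) x) ≤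
      ∫ x, pp a w P ψ r x * deriv (th a w P ψ r) x := by
    apply integral_mono (i1.sub i2) i3
    intro x
    change indicator (Icc (-4 * a - w / 2) (-4 * a + w / 2))
      (fun x : ℝ => Real.cos (P * x + ψ) ^ 2 / w) x -
      indicator (Icc (-4 * a - w) (-4 * a + w)) (fun _ : ℝ => D / (w ^ 2 * P)) x ≤
      pp a w P ψ r x * deriv (th a w P ψ r) x
    by_cases hx : x ∈ Icc (-4 * a - w) (-4 * a + w)
    · rw [indicator_of_mem hx]
      have e : pp a w P ψ r x * deriv (th a w P ψ r) x =
          bmp ((x + 4 * a) / w) * deriv bmp ((x + 4 * a) / w) * Real.sin (P * x + ψ) *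
            Real.cos (P * x + ψ) / (w ^ 2 * P)
          + bmp ((x + 4 * a) / w) ^ 2 * Real.cos (P * x + ψ) ^ 2 / w := by
        rw [th_deriv hB]
        unfold pp
        have hr0 : r ≠ 0 := hr.ne'
        have hwr : w = r ^ 2 := hrw.symm
        rw [div_mul_div_comm]
        have : P * r * r = P * w := by rw [hwr]; ring
        rw [this]
        field_simp
      rw [e]
      have lo : -(D / (w ^ 2 * P)) ≤ bmp ((x + 4 * a) / w) * deriv bmp ((x + 4 * a) / w) *
          Real.sin (P * x + ψ) * Real.cos (P * x + ψ) / (w ^ 2 * P) := by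
        rw [← neg_div]
        gcongr
        have h1 : |bmp ((x + 4 * a) / w)| ≤ 1 := by
          rw [abs_of_nonneg (hB.nonneg _)]; exact hB.le_one _
        have h2 : |bmp ((x + 4 * a) / w) * deriv bmp ((x + 4 * a) / w) *
            Real.sin (P * x + ψ) * Real.cos (P * x + ψ)| ≤ D := by
          rw [abs_mul, abs_mul, abs_mul]
          calc |bmp ((x + 4 * a) / w)| * |deriv bmp ((x + 4 * a) / w)| *
              |Real.sin (P * x + ψ)| * |Real.cos (P * x + ψ)| ≤ 1 * D * 1 * 1 := by
                gcongr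
                · exact hB.der _
                · exact Real.abs_sin_le_one _
                · exact Real.abs_cos_le_one _
            _ = D := by ring
        exact (abs_le.mp h2).1
      by_cases hxJ : x ∈ Icc (-4 * a - w / 2) (-4 * a + w / 2)
      · rw [indicator_of_mem hxJ]
        have hone : bmp ((x + 4 * a) / w) = 1 := by
          apply hB.one
          rw [abs_div, abs_of_pos hw0, div_le_iff₀ hw0, abs_le]
          constructor
          · linarith [hxJ.1]
          · linarith [hxJ.2]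
        rw [hone] at lo ⊢
        simp only [one_pow, one_mul] at lo ⊢
        linarith
      · rw [indicator_of_notMem hxJ]
        have : 0 ≤ bmp ((x + 4 * a) / w) ^ 2 * Real.cos (P * x + ψ) ^ 2 / w := by positivity
        linarith
    · rw [indicator_of_notMem hx, th_deriv_off hB hw0 (mem_I hx)]
      have hxJ : x ∉ Icc (-4 * a - w / 2) (-4 * a + w / 2) := by
        intro h
        exact hx ⟨by linarith [h.1], by linarith [h.2]⟩
      rw [indicator_of_notMem hxJ]
      simp
  refine le_trans ?_ hmono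
  rw [integral_sub i1 i2, integral_indicator hI, integral_indicator hJ, setIntegral_const,
    smul_eq_mul, Real.volume_real_Icc_of_le (by linarith), integral_Icc_eq_integral_Ioc,
    ← intervalIntegral.integral_of_le (by linarith)]
  have hF : ∫ x in (-4 * a - w / 2)..(-4 * a + w / 2), Real.cos (P * x + ψ) ^ 2 / w =
      (fun x : ℝ => (x / 2 + Real.sin (2 * (P * x + ψ)) / (4 * P)) / w) (-4 * a + w / 2) -
      (fun x : ℝ => (x / 2 + Real.sin (2 * (P * x + ψ)) / (4 * P)) / w) (-4 * a - w / 2) := by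
    apply intervalIntegral.integral_eq_sub_of_hasDerivAt
      (f := fun x : ℝ => (x / 2 + Real.sin (2 * (P * x + ψ)) / (4 * P)) / w)
      (f' := fun x : ℝ => Real.cos (P * x + ψ) ^ 2 / w)
    · intro x _
      have h4 : HasDerivAt (fun x : ℝ => 2 * (P * x + ψ)) (2 * P) x := by
        have := (((hasDerivAt_id x).const_mul P).add_const ψ).const_mul 2
        simpa using this
      have h5 := ((((hasDerivAt_id x).div_const 2).add (h4.sin.div_const (4 * P))).div_const w)
      have e : (1 / 2 + Real.cos (2 * (P * x + ψ)) * (2 * P) / (4 * P)) / w =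
          Real.cos (P * x + ψ) ^ 2 / w := by
        rw [Real.cos_sq]
        field_simp
        ring
      rw [← e]
      exact h5
    · exact hcc.intervalIntegrable _ _
  rw [hF]
  have s1 := Real.neg_one_le_sin (2 * (P * (-4 * a + w / 2) + ψ))
  have s2 := Real.sin_le_one (2 * (P * (-4 * a - w / 2) + ψ))
  have e1 : ((-4 * a + w / 2) / 2 + Real.sin (2 * (P * (-4 * a + w / 2) + ψ)) / (4 * P)) / w -
      ((-4 * a - w / 2) / 2 + Real.sin (2 * (P * (-4 * a - w / 2) + ψ)) / (4 * P)) / w =
      1 / 2 + (Real.sin (2 * (P * (-4 * a + w / 2) + ψ)) -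
        Real.sin (2 * (P * (-4 * a - w / 2) + ψ))) / (4 * P * w) := by
    field_simp
    ring
  rw [e1]
  have e2 : -(1 / (2 * P)) ≤ (Real.sin (2 * (P * (-4 * a + w / 2) + ψ)) -
        Real.sin (2 * (P * (-4 * a - w / 2) + ψ))) / (4 * P * w) := by
    rw [le_div_iff₀ (by positivity)]
    have h1 : -(1 / (2 * P)) * (4 * P * w) = -2 * w := by field_simp; ring
    rw [h1]
    nlinarith
  have e3 : (-4 * a + w - (-4 * a - w)) * (D / (w ^ 2 * P)) ≤ 2 * D / P := by
    have h1 : (-4 * a + w - (-4 * a - w)) * (D / (w ^ 2 * P)) = 2 * D / P / w := by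
      field_simp
      ring
    rw [h1]
    exact div_le_self (by positivity) hw
  linarith

/-- The bounds for one packet, with general `L²` functions `g`, `v`. -/
theorem one_packet (hB : Bump D) (hw : 1 ≤ w) (hP : 1 ≤ P) (hr : 0 < r) (hrw : r ^ 2 = w)
    (ha : w ≤ a) {g v q : ℝ → ℝ} {κ : ℝ} (hκ : 0 < κ) (hg : Integrable fun x => g x ^ 2)
    (hgm : AEStronglyMeasurable g volume)
    (hv : Integrable fun x => v x ^ 2 * (1 + |x|) ^ κ) (hvc : Continuous v)
    (hqc : Continuous q)
    (hq : ∀ x, -(5 * a) ≤ x → x ≤ -(3 * a) → q x = pp a w P ψ r x) (R : ℝ) (hR : R ≤ 3 * a)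
    (heq : ∫ x, (v x + q x) * deriv (th a w P ψ r) x = - ∫ x, g x * th a w P ψ r x) :
    1 / 2 - 1 / (2 * P) - 2 * D / P ≤ 8 * (∫ x in Iic (-R), g x ^ 2) + 3 / 32 +
      16 * (D + 1) ^ 2 * (∫ x, v x ^ 2 * (1 + |x|) ^ κ) * (P ^ 2 * a ^ (-κ)) := by
  have hD := D_nonneg hB
  have hw0 : 0 < w := by linarith
  have hP0 : 0 < P := by linarith
  have ha0 : 0 < a := by linarith
  have hthc := (th_contDiff (a := a) (w := w) (P := P) (ψ := ψ) (r := r) hB).continuous
  have hths := th_supp (a := a) (P := P) (ψ := ψ) (r := r) hB hw0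
  have hdc := th_deriv_cont (a := a) (w := w) (P := P) (ψ := ψ) (r := r) hB
  have hds := hths.deriv
  -- (3)
  have m3 := main_int (a := a) (ψ := ψ) hB hw hP hr hrw
  have e3 : ∫ x, pp a w P ψ r x * deriv (th a w P ψ r) x =
      ∫ x, q x * deriv (th a w P ψ r) x := by
    congr 1
    funext x
    by_cases hx : w < |x + 4 * a|
    · rw [th_deriv_off hB hw0 hx]; simp
    · push Not at hx
      rw [abs_le] at hx
      rw [hq x (by linarith [hx.1]) (by linarith [hx.2])]
  have j1 : Integrable (fun x => v x * deriv (th a w P ψ r) x) :=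
    (hvc.mul hdc).integrable_of_hasCompactSupport hds.mul_left
  have j2 : Integrable (fun x => q x * deriv (th a w P ψ r) x) :=
    (hqc.mul hdc).integrable_of_hasCompactSupport hds.mul_left
  have e4 : ∫ x, (v x + q x) * deriv (th a w P ψ r) x =
      (∫ x, v x * deriv (th a w P ψ r) x) + ∫ x, q x * deriv (th a w P ψ r) x := by
    rw [← integral_add j1 j2]
    congr 1
    funext x
    ring
  -- (1)
  have hI : MeasurableSet (Iic (-R)) := measurableSet_Iic
  have k1 : Integrable (fun x => th a w P ψ r x ^ 2) := by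
    have : (fun x => th a w P ψ r x ^ 2) = fun x => th a w P ψ r x * th a w P ψ r x := by
      funext x; ring
    rw [this]
    exact (hthc.mul hthc).integrable_of_hasCompactSupport hths.mul_right
  have k2 : Integrable (fun x => deriv (th a w P ψ r) x ^ 2) := by
    have : (fun x => deriv (th a w P ψ r) x ^ 2) =
        fun x => deriv (th a w P ψ r) x * deriv (th a w P ψ r) x := by
      funext x; ring
    rw [this]
    exact (hdc.mul hdc).integrable_of_hasCompactSupport hds.mul_right
  have b1 : -(∫ x, g x * th a w P ψ r x) ≤ 8 * (∫ x in Iic (-R), g x ^ 2) + 1 / 16 := by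
    have i1 : Integrable (indicator (Iic (-R)) fun x => g x ^ 2) := hg.indicator hI
    have hdom : ∀ x, |g x * th a w P ψ r x| ≤
        8 * indicator (Iic (-R)) (fun x => g x ^ 2) x + 1 / 32 * th a w P ψ r x ^ 2 := by
      intro x
      by_cases hx : x ∈ Iic (-R)
      · rw [indicator_of_mem hx, abs_mul]
        have h1 := sq_nonneg (16 * |g x| - |th a w P ψ r x|)
        have h2 := sq_abs (g x)
        have h3 := sq_abs (th a w P ψ r x)
        nlinarith
      · have : th a w P ψ r x = 0 := by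
          apply th_off hB hw0
          have hx' : -R < x := by simpa using hx
          rw [le_abs]
          left
          linarith
        rw [indicator_of_notMem hx, this]
        simp
    have hint : Integrable (fun x => 8 * indicator (Iic (-R)) (fun x => g x ^ 2) x +
        1 / 32 * th a w P ψ r x ^ 2) := (i1.const_mul 8).add (k1.const_mul (1 / 32))
    have hgt : Integrable (fun x => g x * th a w P ψ r x) := by
      apply hint.mono' (hgm.mul hthc.aestronglyMeasurable)
      exact Filter.Eventually.of_forall fun x => by rw [Real.norm_eq_abs]; exact hdom x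
    calc -(∫ x, g x * th a w P ψ r x) = ∫ x, -(g x * th a w P ψ r x) := by
          rw [integral_neg]
      _ ≤ ∫ x, (8 * indicator (Iic (-R)) (fun x => g x ^ 2) x +
          1 / 32 * th a w P ψ r x ^ 2) := by
          apply integral_mono hgt.neg hint
          intro x
          exact (neg_le_abs _).trans (hdom x)
      _ = 8 * (∫ x in Iic (-R), g x ^ 2) + 1 / 32 * ∫ x, th a w P ψ r x ^ 2 := by
          rw [integral_add (i1.const_mul 8) (k1.const_mul (1 / 32)), integral_const_mul,
            integral_const_mul, integral_indicator hI]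
      _ ≤ 8 * (∫ x in Iic (-R), g x ^ 2) + 1 / 32 * 2 := by
          have := th_int_sq (a := a) (P := P) (ψ := ψ) hB hw0 hr hrw
          gcongr
      _ = _ := by ring
  -- (2)
  have b2 : -(∫ x, v x * deriv (th a w P ψ r) x) ≤
      16 * (D + 1) ^ 2 * (∫ x, v x ^ 2 * (1 + |x|) ^ κ) * (P ^ 2 * a ^ (-κ)) + 1 / 32 := by
    set s : ℝ := 16 * (D + 1) ^ 2 * P ^ 2 with hs
    have hs0 : 0 < s := by positivity
    have hdom : ∀ x, -(v x * deriv (th a w P ψ r) x) ≤
        s * a ^ (-κ) * (v x ^ 2 * (1 + |x|) ^ κ) + 1 / (4 * s) * deriv (th a w P ψ r) x ^ 2 := by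
      intro x
      by_cases hx : w < |x + 4 * a|
      · rw [th_deriv_off hB hw0 hx]
        simp only [mul_zero, neg_zero, ne_eq, OfNat.ofNat_ne_zero, not_false_eq_true, zero_pow,
          add_zero]
        positivity
      · push Not at hx
        rw [abs_le] at hx
        have hxa : a ≤ 1 + |x| := by
          have : x ≤ -(3 * a) := by linarith [hx.2]
          have h2 : -x ≤ |x| := neg_le_abs x
          linarith
        have h1 : 1 ≤ a ^ (-κ) * (1 + |x|) ^ κ := by
          have h2 : a ^ κ ≤ (1 + |x|) ^ κ := Real.rpow_le_rpow ha0.le hxa hκ.le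
          calc (1:ℝ) = a ^ (-κ) * a ^ κ := by
                rw [← Real.rpow_add ha0]; simp
            _ ≤ _ := by gcongr
        have h3 : s * v x ^ 2 ≤ s * a ^ (-κ) * (v x ^ 2 * (1 + |x|) ^ κ) := by
          calc s * v x ^ 2 = s * v x ^ 2 * 1 := by ring
            _ ≤ s * v x ^ 2 * (a ^ (-κ) * (1 + |x|) ^ κ) := by gcongr
            _ = _ := by ring
        have h4 : -(v x * deriv (th a w P ψ r) x) ≤ s * v x ^ 2 +
            1 / (4 * s) * deriv (th a w P ψ r) x ^ 2 := by
          have h5 := sq_nonneg (2 * s * v x + deriv (th a w P ψ r) x)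
          have h6 : 0 ≤ (2 * s * v x + deriv (th a w P ψ r) x) ^ 2 / (4 * s) := by positivity
          have h7 : (2 * s * v x + deriv (th a w P ψ r) x) ^ 2 / (4 * s) =
              s * v x ^ 2 + v x * deriv (th a w P ψ r) x +
              1 / (4 * s) * deriv (th a w P ψ r) x ^ 2 := by
            field_simp
            ring
          linarith
        linarith
    calc -(∫ x, v x * deriv (th a w P ψ r) x) = ∫ x, -(v x * deriv (th a w P ψ r) x) := by
          rw [integral_neg]
      _ ≤ ∫ x, (s * a ^ (-κ) * (v x ^ 2 * (1 + |x|) ^ κ) +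
          1 / (4 * s) * deriv (th a w P ψ r) x ^ 2) := by
          apply integral_mono j1.neg ((hv.const_mul _).add (k2.const_mul _))
          intro x
          exact hdom x
      _ = s * a ^ (-κ) * (∫ x, v x ^ 2 * (1 + |x|) ^ κ) +
          1 / (4 * s) * ∫ x, deriv (th a w P ψ r) x ^ 2 := by
          rw [integral_add (hv.const_mul _) (k2.const_mul _), integral_const_mul,
            integral_const_mul]
      _ ≤ s * a ^ (-κ) * (∫ x, v x ^ 2 * (1 + |x|) ^ κ) +
          1 / (4 * s) * (2 * (D + 1) ^ 2 * P ^ 2) := by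
          have := th_int_deriv_sq (a := a) (ψ := ψ) hB hw hP hr hrw
          gcongr
      _ = _ := by
          rw [hs]
          have hD1 : (D + 1) ≠ 0 := by positivity
          field_simp
          ring
  rw [e4] at heq
  rw [e3] at m3
  linarith

end

/-- **NOTH1.** -/
theorem thm_NOTH1 (h1 : H_GP1) : H_NOTH1 := by
  obtain ⟨⟨hs, hn, hl, ho, hone, D, hD⟩, h2⟩ := h1
  have hB : Bump D := ⟨hs, hn, hl, ho, hone, hD⟩
  intro m M k0 κ hm hmM hκ hMκ t u hu hv
  obtain ⟨hsupp, hsep, _, hgs, _, _, _⟩ := h2 m M k0 hm hmM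
  rintro ⟨_, g, hg, hweak⟩
  set v : ℝ → ℝ := fun x => u x - ginf m M k0 t x with hvdef
  have hqc : Continuous (fun x => ginf m M k0 t x) := (hgs t).continuous
  have hvc : Continuous v := hu.sub hqc
  have hgi : Integrable fun x => g x ^ 2 := hg.integrable_sq
  -- the identity on the `k`-th interval
  have hloc : ∀ k, k0 ≤ k → ∀ x : ℝ, -(5 * (4:ℝ) ^ (M * k)) ≤ x → x ≤ -(3 * (4:ℝ) ^ (M * k)) →
      ginf m M k0 t x = pp ((4:ℝ) ^ (M * k)) ((4:ℝ) ^ (m * k)) (2 ^ k) (8 ^ k * t)
        (2 ^ (m * k)) x := by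
    intro k hk x hx1 hx2
    have e : ginf m M k0 t x = pk m M (k0 + (k - k0)) t x := by
      unfold ginf
      apply tsum_eq_single
      intro j hj
      by_contra hne
      obtain ⟨a1, a2⟩ := hsupp _ _ _ hne
      rcases lt_or_gt_of_ne (show k0 + j ≠ k by omega) with h | h
      · have := hsep _ _ h
        linarith
      · have := hsep _ _ h
        linarith
    rw [e, show k0 + (k - k0) = k by omega]
    rfl
  have key : ∀ k : ℕ, k0 ≤ k → 1 / 2 - 1 / (2 * (2:ℝ) ^ k) - 2 * D / (2:ℝ) ^ k ≤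
      8 * (∫ x in Iic (-(k:ℝ)), g x ^ 2) + 3 / 32 +
      16 * (D + 1) ^ 2 * (∫ x, v x ^ 2 * (1 + |x|) ^ κ) *
        (((2:ℝ) ^ k) ^ 2 * ((4:ℝ) ^ (M * k)) ^ (-κ)) := by
    intro k hk
    have hMk : m * k ≤ M * k := Nat.mul_le_mul_right k hmM
    have hkM : k ≤ M * k := Nat.le_mul_of_pos_left k (by omega)
    have hk4 : (k:ℝ) ≤ (4:ℝ) ^ (M * k) := by
      have h1 : k ≤ 4 ^ (M * k) :=
        hkM.trans (Nat.lt_pow_self (by norm_num)).le
      exact_mod_cast h1
    have hpos : (0:ℝ) < (4:ℝ) ^ (M * k) := by positivity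
    apply one_packet (a := (4:ℝ) ^ (M * k)) (w := (4:ℝ) ^ (m * k)) (P := 2 ^ k)
      (ψ := 8 ^ k * t) (r := 2 ^ (m * k)) (q := fun x => ginf m M k0 t x) hB
      (one_le_pow₀ (by norm_num)) (one_le_pow₀ (by norm_num)) (by positivity)
      (by rw [← pow_mul, mul_comm (m * k) 2, pow_mul]; norm_num)
      (pow_le_pow_right₀ (by norm_num) hMk) hκ hgi hg.1 hv hvc hqc (hloc k hk) (k:ℝ)
      (by linarith)
    have h := hweak _ (th_contDiff (a := (4:ℝ) ^ (M * k)) (w := (4:ℝ) ^ (m * k)) (P := 2 ^ k)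
      (ψ := 8 ^ k * t) (r := 2 ^ (m * k)) hB)
      (th_supp (a := (4:ℝ) ^ (M * k)) (w := (4:ℝ) ^ (m * k)) (P := 2 ^ k)
      (ψ := 8 ^ k * t) (r := 2 ^ (m * k)) hB (by positivity))
    rw [← h]
    congr 1
    funext x
    ring
  -- limits
  have l1 : Tendsto (fun k : ℕ => ((2:ℝ) ^ k)⁻¹) atTop (𝓝 0) := by
    have := tendsto_pow_atTop_nhds_zero_of_lt_one (r := (1/2 : ℝ)) (by norm_num) (by norm_num)
    refine this.congr fun k => ?_
    rw [one_div, inv_pow]
  have l2 : Tendsto (fun k : ℕ => ∫ x in Iic (-(k:ℝ)), g x ^ 2) atTop (𝓝 0) := by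
    have h := tendsto_setIntegral_of_antitone (μ := volume) (f := fun x => g x ^ 2)
      (s := fun k : ℕ => Iic (-(k:ℝ))) (fun _ => measurableSet_Iic)
      (by
        intro i j hij
        apply Iic_subset_Iic.mpr
        have : (i:ℝ) ≤ j := by exact_mod_cast hij
        linarith)
      ⟨0, hgi.integrableOn⟩
    have he : (⋂ k : ℕ, Iic (-(k:ℝ))) = ∅ := by
      rw [eq_empty_iff_forall_notMem]
      intro x hx
      rw [mem_iInter] at hx
      obtain ⟨n, hn⟩ := exists_nat_gt (-x)
      have := hx n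
      rw [mem_Iic] at this
      linarith
    rw [he] at h
    simpa using h
  have l3 : Tendsto (fun k : ℕ => ((2:ℝ) ^ k) ^ 2 * ((4:ℝ) ^ (M * k)) ^ (-κ)) atTop (𝓝 0) := by
    have h4 : (4:ℝ) ^ (1 - M * κ : ℝ) < 1 :=
      Real.rpow_lt_one_of_one_lt_of_neg (by norm_num) (by linarith)
    have h5 := tendsto_pow_atTop_nhds_zero_of_lt_one
      (Real.rpow_nonneg (by norm_num : (0:ℝ) ≤ 4) (1 - M * κ)) h4
    refine h5.congr fun k => ?_
    rw [← Real.rpow_natCast ((4:ℝ) ^ (1 - M * κ : ℝ)) k, ← Real.rpow_mul (by norm_num),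
      ← pow_mul, mul_comm k 2, pow_mul, ← Real.rpow_natCast (4:ℝ) (M * k),
      ← Real.rpow_mul (by norm_num), show ((2:ℝ) ^ 2) = 4 by norm_num,
      ← Real.rpow_natCast (4:ℝ) k, ← Real.rpow_add (by norm_num)]
    congr 1
    push_cast
    ring
  have L : Tendsto (fun k : ℕ => 1 / 2 - 1 / (2 * (2:ℝ) ^ k) - 2 * D / (2:ℝ) ^ k) atTop
      (𝓝 (1 / 2)) := by
    have h := (l1.const_mul (1 / 2)).const_sub (1 / 2 : ℝ)
    have h' := h.sub (l1.const_mul (2 * D))
    have e : (fun k : ℕ => 1 / 2 - 1 / (2 * (2:ℝ) ^ k) - 2 * D / (2:ℝ) ^ k) =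
        fun k : ℕ => 1 / 2 - 1 / 2 * ((2:ℝ) ^ k)⁻¹ - 2 * D * ((2:ℝ) ^ k)⁻¹ := by
      funext k
      field_simp
    rw [e]
    simpa using h'
  have Rt : Tendsto (fun k : ℕ => 8 * (∫ x in Iic (-(k:ℝ)), g x ^ 2) + 3 / 32 +
      16 * (D + 1) ^ 2 * (∫ x, v x ^ 2 * (1 + |x|) ^ κ) *
        (((2:ℝ) ^ k) ^ 2 * ((4:ℝ) ^ (M * k)) ^ (-κ))) atTop (𝓝 (3 / 32)) := by
    have h := ((l2.const_mul 8).add_const (3 / 32)).add
      (l3.const_mul (16 * (D + 1) ^ 2 * (∫ x, v x ^ 2 * (1 + |x|) ^ κ)))
    simpa using h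
  have := le_of_tendsto_of_tendsto L Rt
    (by filter_upwards [eventually_ge_atTop k0] with k hk using key k hk)
  norm_num at this

end Pool.Agent.Helper75.KV

namespace Pool.Agent.Helper25.KV

theorem thm_NOTH1 (h1 : H_GP1) : H_NOTH1 := Pool.Agent.Helper75.KV.thm_NOTH1 h1

end Pool.Agent.Helper25.KV
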