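import Pool.Agent.Helper48.KV.GoalsG1

/-!
# PROJECT KV (MP_66be51_an), packet TIME: the integrated identity
-/

open MeasureTheory Set Filter Topology

noncomputable section

namespace Pool.Agent.Helper75.KV

open Pool.Agent.Helper33.KV Pool.Agent.Helper41.KV Pool.Agent.Helper48.KV

/-- sup bound from two `L²` norms -/
theorem sq_le_of_L2 {f f' : ℝ → ℝ} (hd : ∀ x, HasDerivAt f (f' x) x) (hf : MemLp f 2)
    (hf' : MemLp f' 2) (x : ℝ) : f x ^ 2 ≤ (∫ y, f y ^ 2) + ∫ y, f' y ^ 2 := by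
  have i1 : Integrable (fun y => f y ^ 2) := hf.integrable_sq
  have i2 : Integrable (fun y => f' y ^ 2) := hf'.integrable_sq
  have i3 : Integrable (fun y => f y * f' y) := hf.integrable_mul hf'
  have i4 : Integrable (fun y => 2 * f y * f' y) := by
    simpa [mul_assoc] using i3.const_mul 2
  have hd2 : ∀ y, HasDerivAt (fun y => f y ^ 2) (2 * f y * f' y) y := fun y => by
    simpa using (hd y).fun_pow 2
  have ht : Tendsto (fun y => f y ^ 2) atBot (𝓝 0) :=
    tendsto_zero_of_hasDerivAt_of_integrableOn_Iic (a := x) (fun y _ => hd2 y)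
      i4.integrableOn i1.integrableOn
  have h := integral_Iic_of_hasDerivAt_of_tendsto' (a := x) (fun y _ => hd2 y)
    i4.integrableOn ht
  rw [sub_zero] at h
  rw [← h, ← integral_add i1 i2]
  calc ∫ y in Iic x, 2 * f y * f' y ≤ ∫ y in Iic x, (f y ^ 2 + f' y ^ 2) := by
        apply setIntegral_mono i4.integrableOn (i1.add i2).integrableOn
        intro y
        have := sq_nonneg (f y - f' y)
        change 2 * f y * f' y ≤ f y ^ 2 + f' y ^ 2
        nlinarith
    _ ≤ ∫ y, (f y ^ 2 + f' y ^ 2) :=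
        setIntegral_le_integral (i1.add i2) (Eventually.of_forall fun y => by
          change 0 ≤ f y ^ 2 + f' y ^ 2
          positivity)

/-- continuous and bounded on the strip -/
structure BC (t1 t2 : ℝ) (F : ℝ → ℝ → ℝ) : Prop where
  ct : ContinuousOn (fun z : ℝ × ℝ => F z.1 z.2) (Icc t1 t2 ×ˢ univ)
  bd : ∃ C : ℝ, 0 ≤ C ∧ ∀ t ∈ Icc t1 t2, ∀ x, |F t x| ≤ C

section

variable {t1 t2 : ℝ}

theorem BC.const (c : ℝ) : BC t1 t2 (fun _ _ => c) :=
  ⟨continuousOn_const, |c|, abs_nonneg c, fun _ _ _ => le_rfl⟩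

theorem BC.add {F G : ℝ → ℝ → ℝ} (hF : BC t1 t2 F) (hG : BC t1 t2 G) :
    BC t1 t2 (fun t x => F t x + G t x) := by
  obtain ⟨C, hC0, hC⟩ := hF.bd
  obtain ⟨D, hD0, hD⟩ := hG.bd
  exact ⟨hF.ct.add hG.ct, C + D, by positivity, fun t ht x =>
    (abs_add_le _ _).trans (add_le_add (hC t ht x) (hD t ht x))⟩

theorem BC.mul {F G : ℝ → ℝ → ℝ} (hF : BC t1 t2 F) (hG : BC t1 t2 G) :
    BC t1 t2 (fun t x => F t x * G t x) := by
  obtain ⟨C, hC0, hC⟩ := hF.bd
  obtain ⟨D, hD0, hD⟩ := hG.bd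
  refine ⟨hF.ct.mul hG.ct, C * D, by positivity, fun t ht x => ?_⟩
  rw [abs_mul]
  exact mul_le_mul (hC t ht x) (hD t ht x) (abs_nonneg _) hC0

theorem BC.neg {F : ℝ → ℝ → ℝ} (hF : BC t1 t2 F) : BC t1 t2 (fun t x => - F t x) := by
  obtain ⟨C, hC0, hC⟩ := hF.bd
  exact ⟨hF.ct.neg, C, hC0, fun t ht x => by rw [abs_neg]; exact hC t ht x⟩

theorem BC.sub {F G : ℝ → ℝ → ℝ} (hF : BC t1 t2 F) (hG : BC t1 t2 G) :
    BC t1 t2 (fun t x => F t x - G t x) := by
  simpa [sub_eq_add_neg] using hF.add hG.neg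

theorem BC.pow {F : ℝ → ℝ → ℝ} (hF : BC t1 t2 F) (n : ℕ) :
    BC t1 t2 (fun t x => F t x ^ n) := by
  induction n with
  | zero => simpa using BC.const (t1 := t1) (t2 := t2) 1
  | succ n ih => simpa [pow_succ] using ih.mul hF

theorem BC.continuous {F : ℝ → ℝ → ℝ} (hF : BC t1 t2 F) {t : ℝ} (ht : t ∈ Icc t1 t2) :
    Continuous (F t) := by
  have h : ContinuousOn (fun x : ℝ => (t, x)) univ := by fun_prop
  have := hF.ct.comp h (fun x _ => ⟨ht, mem_univ _⟩)
  exact continuousOn_univ.mp this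

/-- `L²` fields -/
structure L2F (t1 t2 : ℝ) (f : ℝ → ℝ → ℝ) : Prop where
  bc : BC t1 t2 f
  mem : ∀ t ∈ Icc t1 t2, MemLp (f t) 2
  bound : ∃ C : ℝ, ∀ t ∈ Icc t1 t2, (∫ x, f t x ^ 2) ≤ C

theorem int3 {A f g : ℝ → ℝ → ℝ} (hA : BC t1 t2 A) {t : ℝ} (ht : t ∈ Icc t1 t2)
    (hf : MemLp (f t) 2) (hg : MemLp (g t) 2) :
    Integrable (fun x => A t x * (f t x * g t x)) := by
  obtain ⟨C, _, hC⟩ := hA.bd
  exact (hf.integrable_mul hg).bdd_mul (c := C) (hA.continuous ht).aestronglyMeasurable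
    (Eventually.of_forall fun x => by rw [Real.norm_eq_abs]; exact hC t ht x)

theorem mem3 {A f : ℝ → ℝ → ℝ} (hA : BC t1 t2 A) {t : ℝ} (ht : t ∈ Icc t1 t2)
    (hf : MemLp (f t) 2) : MemLp (fun x => A t x * f t x) 2 := by
  obtain ⟨C, _, hC⟩ := hA.bd
  refine hf.of_le_mul (c := C) ((hA.continuous ht).aestronglyMeasurable.mul hf.1)
    (Eventually.of_forall fun x => ?_)
  rw [norm_mul, Real.norm_eq_abs]
  exact mul_le_mul_of_nonneg_right (hC t ht x) (norm_nonneg _)

/-- polynomial factors -/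
def kGG (U e : ℝ) : ℝ := 15 * U ^ 4 + 20 * U ^ 3 * e + 15 * U ^ 2 * e ^ 2 + 6 * U * e ^ 3 + e ^ 4

def kG (U e : ℝ) : ℝ := 5 * U ^ 4 + 10 * U ^ 3 * e + 10 * U ^ 2 * e ^ 2 + 5 * U * e ^ 3 + e ^ 4

def kG2 (U e : ℝ) : ℝ := 10 * U ^ 3 + 10 * U ^ 2 * e + 5 * U * e ^ 2 + e ^ 3

theorem nGG_eq (U e : ℝ) : nGG U e = e ^ 2 * kGG U e := by unfold nGG kGG; ring

theorem nG_eq (U e : ℝ) : nG U e = e * kG U e := by unfold nG kG; ring

theorem nG2_eq (U e : ℝ) : nG2 U e = e ^ 2 * kG2 U e := by unfold nG2 kG2; ring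

theorem bc_kGG {U e : ℝ → ℝ → ℝ} (hU : BC t1 t2 U) (he : BC t1 t2 e) :
    BC t1 t2 (fun t x => kGG (U t x) (e t x)) := by
  unfold kGG
  exact (((((BC.const 15).mul (hU.pow 4)).add (((BC.const 20).mul (hU.pow 3)).mul he)).add
    (((BC.const 15).mul (hU.pow 2)).mul (he.pow 2))).add
    (((BC.const 6).mul hU).mul (he.pow 3))).add (he.pow 4)

theorem bc_kG {U e : ℝ → ℝ → ℝ} (hU : BC t1 t2 U) (he : BC t1 t2 e) :
    BC t1 t2 (fun t x => kG (U t x) (e t x)) := by
  unfold kG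
  exact (((((BC.const 5).mul (hU.pow 4)).add (((BC.const 10).mul (hU.pow 3)).mul he)).add
    (((BC.const 10).mul (hU.pow 2)).mul (he.pow 2))).add
    (((BC.const 5).mul hU).mul (he.pow 3))).add (he.pow 4)

theorem bc_kG2 {U e : ℝ → ℝ → ℝ} (hU : BC t1 t2 U) (he : BC t1 t2 e) :
    BC t1 t2 (fun t x => kG2 (U t x) (e t x)) := by
  unfold kG2
  exact ((((BC.const 10).mul (hU.pow 3)).add (((BC.const 10).mul (hU.pow 2)).mul he)).add
    (((BC.const 5).mul hU).mul (he.pow 2))).add (he.pow 3)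

/-- the time derivative of the density -/
def Dt (p pt q qt U Ut e et e1 e1t : ℝ → ℝ → ℝ) (t x : ℝ) : ℝ :=
  pt t x * e t x ^ 2 + 2 * p t x * e t x * et t x
    + qt t x * (e1 t x ^ 2 - nGG (U t x) (e t x) / 3)
    + q t x * (2 * e1 t x * e1t t x - 2 * nG (U t x) (e t x) * et t x
      - 2 * nG2 (U t x) (e t x) * Ut t x)

variable {p pt q qt U Ut e et e1 e1t : ℝ → ℝ → ℝ}

theorem Dt_eq (t x : ℝ) : Dt p pt q qt U Ut e et e1 e1t t x =
    (pt t x - qt t x * kGG (U t x) (e t x) * (1 / 3)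
      - 2 * q t x * kG2 (U t x) (e t x) * Ut t x) * (e t x * e t x)
    + qt t x * (e1 t x * e1 t x)
    + (2 * p t x - 2 * q t x * kG (U t x) (e t x)) * (e t x * et t x)
    + (2 * q t x) * (e1 t x * e1t t x) := by
  unfold Dt
  rw [nGG_eq, nG_eq, nG2_eq]
  ring

theorem dens_eq (t x : ℝ) : dens (p t x) (q t x) (U t x) (e t x) (e1 t x) =
    (p t x - q t x * kGG (U t x) (e t x) * (1 / 3)) * (e t x * e t x)
    + q t x * (e1 t x * e1 t x) := by
  unfold dens
  rw [nGG_eq]
  ring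

theorem dens_hasDeriv {I : Set ℝ} {t x : ℝ}
    (hp : HasDerivWithinAt (fun τ => p τ x) (pt t x) I t)
    (hq : HasDerivWithinAt (fun τ => q τ x) (qt t x) I t)
    (hU : HasDerivWithinAt (fun τ => U τ x) (Ut t x) I t)
    (he : HasDerivWithinAt (fun τ => e τ x) (et t x) I t)
    (he1 : HasDerivWithinAt (fun τ => e1 τ x) (e1t t x) I t) :
    HasDerivWithinAt (fun τ => dens (p τ x) (q τ x) (U τ x) (e τ x) (e1 τ x))
      (Dt p pt q qt U Ut e et e1 e1t t x) I t := by
  have H := (hp.fun_mul (he.fun_pow 2)).fun_add (hq.fun_mul ((he1.fun_pow 2).fun_sub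
    (((((hU.fun_add he).fun_pow 6).fun_sub (hU.fun_pow 6)).fun_sub
      (((hU.fun_pow 5).const_mul 6).fun_mul he)).div_const 3)))
  refine H.congr_deriv ?_
  simp only [Dt, nG, nG2, nGG, Nat.cast_ofNat]
  ring

/-- The abstract integrated identity. -/
theorem core (h12 : t1 ≤ t2) (hp : BC t1 t2 p) (hpt : BC t1 t2 pt) (hq : BC t1 t2 q)
    (hqt : BC t1 t2 qt) (hU : BC t1 t2 U) (hUt : BC t1 t2 Ut) (he : L2F t1 t2 e)
    (het : L2F t1 t2 et) (he1 : L2F t1 t2 e1) (he1t : L2F t1 t2 e1t)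
    (dp : ∀ t ∈ Icc t1 t2, ∀ x, HasDerivWithinAt (fun τ => p τ x) (pt t x) (Icc t1 t2) t)
    (dq : ∀ t ∈ Icc t1 t2, ∀ x, HasDerivWithinAt (fun τ => q τ x) (qt t x) (Icc t1 t2) t)
    (dU : ∀ t ∈ Icc t1 t2, ∀ x, HasDerivWithinAt (fun τ => U τ x) (Ut t x) (Icc t1 t2) t)
    (de : ∀ t ∈ Icc t1 t2, ∀ x, HasDerivWithinAt (fun τ => e τ x) (et t x) (Icc t1 t2) t)
    (de1 : ∀ t ∈ Icc t1 t2, ∀ x, HasDerivWithinAt (fun τ => e1 τ x) (e1t t x) (Icc t1 t2) t) :
    (∀ t ∈ Icc t1 t2, Integrable (Dt p pt q qt U Ut e et e1 e1t t)) ∧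
    (∀ t ∈ Icc t1 t2, Integrable
      (fun x => dens (p t x) (q t x) (U t x) (e t x) (e1 t x))) ∧
    IntervalIntegrable (fun t => ∫ x, Dt p pt q qt U Ut e et e1 e1t t x) volume t1 t2 ∧
    (∫ x, dens (p t2 x) (q t2 x) (U t2 x) (e t2 x) (e1 t2 x)) -
      (∫ x, dens (p t1 x) (q t1 x) (U t1 x) (e t1 x) (e1 t1 x)) =
      ∫ t in t1..t2, ∫ x, Dt p pt q qt U Ut e et e1 e1t t x := by
  set A : ℝ → ℝ → ℝ := fun t x => pt t x - qt t x * kGG (U t x) (e t x) * (1 / 3)
      - 2 * q t x * kG2 (U t x) (e t x) * Ut t x with hA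
  set C1 : ℝ → ℝ → ℝ := fun t x => 2 * p t x - 2 * q t x * kG (U t x) (e t x) with hC1
  set C2 : ℝ → ℝ → ℝ := fun t x => 2 * q t x with hC2
  have bA : BC t1 t2 A := (hpt.sub ((hqt.mul (bc_kGG hU he.bc)).mul (BC.const (1 / 3)))).sub
    ((((BC.const 2).mul hq).mul (bc_kG2 hU he.bc)).mul hUt)
  have bC1 : BC t1 t2 C1 := ((BC.const 2).mul hp).sub
    (((BC.const 2).mul hq).mul (bc_kG hU he.bc))
  have bC2 : BC t1 t2 C2 := (BC.const 2).mul hq
  have eD : ∀ t x, Dt p pt q qt U Ut e et e1 e1t t x = A t x * (e t x * e t x)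
      + qt t x * (e1 t x * e1 t x) + C1 t x * (e t x * et t x)
      + C2 t x * (e1 t x * e1t t x) := fun t x => Dt_eq t x
  have iD : ∀ t ∈ Icc t1 t2, Integrable (Dt p pt q qt U Ut e et e1 e1t t) := by
    intro t ht
    have h : Dt p pt q qt U Ut e et e1 e1t t = fun x => A t x * (e t x * e t x)
      + qt t x * (e1 t x * e1 t x) + C1 t x * (e t x * et t x)
      + C2 t x * (e1 t x * e1t t x) := funext fun x => eD t x
    rw [h]
    exact (((int3 bA ht (he.mem t ht) (he.mem t ht)).add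
      (int3 hqt ht (he1.mem t ht) (he1.mem t ht))).add
      (int3 bC1 ht (he.mem t ht) (het.mem t ht))).add
      (int3 bC2 ht (he1.mem t ht) (he1t.mem t ht))
  have iE : ∀ t ∈ Icc t1 t2, Integrable
      (fun x => dens (p t x) (q t x) (U t x) (e t x) (e1 t x)) := by
    intro t ht
    have h : (fun x => dens (p t x) (q t x) (U t x) (e t x) (e1 t x)) = fun x =>
      (p t x - q t x * kGG (U t x) (e t x) * (1 / 3)) * (e t x * e t x)
      + q t x * (e1 t x * e1 t x) := funext fun x => dens_eq t x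
    rw [h]
    have b : BC t1 t2 (fun t x => p t x - q t x * kGG (U t x) (e t x) * (1 / 3)) :=
      hp.sub ((hq.mul (bc_kGG hU he.bc)).mul (BC.const (1 / 3)))
    exact (int3 b ht (he.mem t ht) (he.mem t ht)).add
      (int3 hq ht (he1.mem t ht) (he1.mem t ht))
  -- the product measure
  have ctD : ContinuousOn (fun z : ℝ × ℝ => Dt p pt q qt U Ut e et e1 e1t z.1 z.2)
      (Icc t1 t2 ×ˢ univ) := by
    have h : (fun z : ℝ × ℝ => Dt p pt q qt U Ut e et e1 e1t z.1 z.2) = fun z : ℝ × ℝ =>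
      A z.1 z.2 * (e z.1 z.2 * e z.1 z.2)
      + qt z.1 z.2 * (e1 z.1 z.2 * e1 z.1 z.2) + C1 z.1 z.2 * (e z.1 z.2 * et z.1 z.2)
      + C2 z.1 z.2 * (e1 z.1 z.2 * e1t z.1 z.2) := funext fun z => eD z.1 z.2
    rw [h]
    exact (((bA.ct.mul (he.bc.ct.mul he.bc.ct)).add
      (hqt.ct.mul (he1.bc.ct.mul he1.bc.ct))).add
      (bC1.ct.mul (he.bc.ct.mul het.bc.ct))).add (bC2.ct.mul (he1.bc.ct.mul he1t.bc.ct))
  have mD : AEStronglyMeasurable (fun z : ℝ × ℝ => Dt p pt q qt U Ut e et e1 e1t z.1 z.2)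
      ((volume.restrict (Ioc t1 t2)).prod volume) := by
    have h1 : AEStronglyMeasurable (fun z : ℝ × ℝ => Dt p pt q qt U Ut e et e1 e1t z.1 z.2)
        ((volume.prod volume).restrict (Ioc t1 t2 ×ˢ (univ : Set ℝ))) :=
      (ctD.mono (prod_mono Ioc_subset_Icc_self subset_rfl)).aestronglyMeasurable
        (measurableSet_Ioc.prod MeasurableSet.univ)
    rwa [← Measure.prod_restrict, Measure.restrict_univ] at h1
  obtain ⟨kA, kA0, kA'⟩ := bA.bd
  obtain ⟨kq, kq0, kq'⟩ := hqt.bd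
  obtain ⟨k1, k10, k1'⟩ := bC1.bd
  obtain ⟨k2, k20, k2'⟩ := bC2.bd
  obtain ⟨n1, n1'⟩ := he.bound
  obtain ⟨n2, n2'⟩ := he1.bound
  obtain ⟨n3, n3'⟩ := het.bound
  obtain ⟨n4, n4'⟩ := he1t.bound
  set K : ℝ := kA + kq + k1 + k2 with hK
  have dom : ∀ t ∈ Icc t1 t2, ∀ x, |Dt p pt q qt U Ut e et e1 e1t t x| ≤
      2 * K * (e t x ^ 2 + e1 t x ^ 2 + et t x ^ 2 + e1t t x ^ 2) := by
    intro t ht x
    rw [eD]
    have a1 : |A t x * (e t x * e t x)| ≤ K * e t x ^ 2 := by
      rw [abs_mul, abs_mul, ← sq, sq_abs]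
      exact mul_le_mul_of_nonneg_right ((kA' t ht x).trans (by rw [hK]; linarith))
        (sq_nonneg _)
    have a2 : |qt t x * (e1 t x * e1 t x)| ≤ K * e1 t x ^ 2 := by
      rw [abs_mul, abs_mul, ← sq, sq_abs]
      exact mul_le_mul_of_nonneg_right ((kq' t ht x).trans (by rw [hK]; linarith))
        (sq_nonneg _)
    have hab : ∀ a b : ℝ, |a * b| ≤ a ^ 2 + b ^ 2 := by
      intro a b
      rw [abs_le]
      constructor <;> nlinarith [sq_nonneg (a + b), sq_nonneg (a - b), sq_nonneg a, sq_nonneg b]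
    have hK0 : 0 ≤ K := by positivity
    have a3 : |C1 t x * (e t x * et t x)| ≤ K * (e t x ^ 2 + et t x ^ 2) := by
      rw [abs_mul]
      exact mul_le_mul ((k1' t ht x).trans (by rw [hK]; linarith)) (hab _ _)
        (abs_nonneg _) hK0
    have a4 : |C2 t x * (e1 t x * e1t t x)| ≤ K * (e1 t x ^ 2 + e1t t x ^ 2) := by
      rw [abs_mul]
      exact mul_le_mul ((k2' t ht x).trans (by rw [hK]; linarith)) (hab _ _)
        (abs_nonneg _) hK0
    have a5 := abs_add_le (A t x * (e t x * e t x) + qt t x * (e1 t x * e1 t x)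
      + C1 t x * (e t x * et t x)) (C2 t x * (e1 t x * e1t t x))
    have a6 := abs_add_le (A t x * (e t x * e t x) + qt t x * (e1 t x * e1 t x))
      (C1 t x * (e t x * et t x))
    have a7 := abs_add_le (A t x * (e t x * e t x)) (qt t x * (e1 t x * e1 t x))
    have b1 : 0 ≤ K * et t x ^ 2 := by positivity
    have b2 : 0 ≤ K * e1t t x ^ 2 := by positivity
    nlinarith
  have iPr : Integrable (fun z : ℝ × ℝ => Dt p pt q qt U Ut e et e1 e1t z.1 z.2)
      ((volume.restrict (Ioc t1 t2)).prod volume) := by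
    rw [integrable_prod_iff mD]
    constructor
    · rw [ae_restrict_iff' measurableSet_Ioc]
      exact Eventually.of_forall fun t ht => iD t (Ioc_subset_Icc_self ht)
    · have hm : AEStronglyMeasurable
          (fun t => ∫ x, ‖Dt p pt q qt U Ut e et e1 e1t t x‖) (volume.restrict (Ioc t1 t2)) :=
        mD.norm.integral_prod_right'
      refine Integrable.mono' (g := fun _ => 2 * K * (n1 + n2 + n3 + n4))
        (integrable_const _) hm ?_
      rw [ae_restrict_iff' measurableSet_Ioc]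
      refine Eventually.of_forall fun t ht => ?_
      have ht' := Ioc_subset_Icc_self ht
      rw [Real.norm_eq_abs, abs_of_nonneg (integral_nonneg fun _ => norm_nonneg _)]
      have j1 := (he.mem t ht').integrable_sq
      have j2 := (he1.mem t ht').integrable_sq
      have j3 := (het.mem t ht').integrable_sq
      have j4 := (he1t.mem t ht').integrable_sq
      calc ∫ x, ‖Dt p pt q qt U Ut e et e1 e1t t x‖
          ≤ ∫ x, 2 * K * (e t x ^ 2 + e1 t x ^ 2 + et t x ^ 2 + e1t t x ^ 2) := by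
            apply integral_mono (iD t ht').norm ((((j1.add j2).add j3).add j4).const_mul _)
            intro x
            exact dom t ht' x
        _ = 2 * K * ((∫ x, e t x ^ 2) + (∫ x, e1 t x ^ 2) + (∫ x, et t x ^ 2)
            + ∫ x, e1t t x ^ 2) := by
            have i12 : Integrable (fun x => e t x ^ 2 + e1 t x ^ 2) := j1.add j2
            have i123 : Integrable (fun x => e t x ^ 2 + e1 t x ^ 2 + et t x ^ 2) := i12.add j3
            rw [integral_const_mul, integral_add i123 j4, integral_add i12 j3,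
              integral_add j1 j2]
        _ ≤ 2 * K * (n1 + n2 + n3 + n4) := by
            have hK0 : 0 ≤ K := by positivity
            have m1 := n1' t ht'
            have m2 := n2' t ht'
            have m3 := n3' t ht'
            have m4 := n4' t ht'
            gcongr
  refine ⟨iD, iE, ?_, ?_⟩
  · rw [intervalIntegrable_iff_integrableOn_Ioc_of_le h12]
    exact iPr.integral_prod_left
  · have hswap := intervalIntegral_integral_swap (a := t1) (b := t2) (μ := (volume : Measure ℝ))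
      (f := fun t x => Dt p pt q qt U Ut e et e1 e1t t x) (by
        rw [uIoc_of_le h12]
        exact iPr)
    rw [hswap, ← integral_sub (iE t2 (right_mem_Icc.mpr h12)) (iE t1 (left_mem_Icc.mpr h12))]
    congr 1
    funext x
    symm
    have hcx : ContinuousOn (fun t => Dt p pt q qt U Ut e et e1 e1t t x) (Icc t1 t2) := by
      have h : ContinuousOn (fun t : ℝ => (t, x)) (Icc t1 t2) := by fun_prop
      exact ctD.comp h (fun t ht => ⟨ht, mem_univ _⟩)
    have hE : ∀ t ∈ Icc t1 t2, HasDerivWithinAt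
        (fun τ => dens (p τ x) (q τ x) (U τ x) (e τ x) (e1 τ x))
        (Dt p pt q qt U Ut e et e1 e1t t x) (Icc t1 t2) t := fun t ht =>
      dens_hasDeriv (dp t ht x) (dq t ht x) (dU t ht x) (de t ht x) (de1 t ht x)
    apply intervalIntegral.integral_eq_sub_of_hasDerivAt_of_le h12
      (f := fun τ => dens (p τ x) (q τ x) (U τ x) (e τ x) (e1 τ x))
    · exact fun t ht => (hE t ht).continuousWithinAt
    · intro t ht
      exact (hE t (Ioo_subset_Icc_self ht)).hasDerivAt (Icc_mem_nhds ht.1 ht.2)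
    · apply ContinuousOn.intervalIntegrable
      rw [uIcc_of_le h12]
      exact hcx

/-- jets from smoothness -/
theorem isJet_of_smooth {f : ℝ → ℝ} (hf : ContDiff ℝ (⊤ : ℕ∞) f) :
    IsJet (fun k => iteratedDeriv k f) := by
  intro k x
  have h1 : Differentiable ℝ (iteratedDeriv k f) :=
    hf.differentiable_iteratedDeriv k (by exact_mod_cast WithTop.coe_lt_top k)
  have h2 : iteratedDeriv (k + 1) f x = deriv (iteratedDeriv k f) x := by
    rw [iteratedDeriv_succ]
  change HasDerivAt (iteratedDeriv k f) (iteratedDeriv (k + 1) f x) x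
  rw [h2]
  exact (h1 x).hasDerivAt

theorem bc_of_hinf {u : ℝ → ℝ → ℝ} (h : HInf u t1 t2) (k : ℕ) :
    BC t1 t2 (fun t x => iteratedDeriv k (u t) x) := by
  refine ⟨h.cont k, ?_⟩
  obtain ⟨C, hC⟩ := h.bound k
  obtain ⟨D, hD⟩ := h.bound (k + 1)
  refine ⟨Real.sqrt (|C| + |D|), Real.sqrt_nonneg _, fun t ht x => ?_⟩
  apply Real.abs_le_sqrt
  have hj := isJet_of_smooth (h.smooth t ht)
  have h1 := sq_le_of_L2 (hj k) (h.memLp k t ht) (h.memLp (k + 1) t ht) x
  have h2 := hC t ht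
  have h3 := hD t ht
  have h4 := le_abs_self C
  have h5 := le_abs_self D
  linarith

theorem l2f_of_hinf {u : ℝ → ℝ → ℝ} (h : HInf u t1 t2) (k : ℕ) :
    L2F t1 t2 (fun t x => iteratedDeriv k (u t) x) :=
  ⟨bc_of_hinf h k, fun t ht => h.memLp k t ht, h.bound k⟩

theorem bc_of_binf (h : BInf p pt t1 t2) (k : ℕ) :
    BC t1 t2 (fun t x => iteratedDeriv k (p t) x) := by
  obtain ⟨C, hC⟩ := h.bound k
  exact ⟨h.cont k, max C 0, le_max_right _ _, fun t ht x => (hC t ht x).trans (le_max_left _ _)⟩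

theorem bct_of_binf (h : BInf p pt t1 t2) : BC t1 t2 pt := by
  obtain ⟨C, hC⟩ := h.boundt
  exact ⟨h.contt, max C 0, le_max_right _ _, fun t ht x => (hC t ht x).trans (le_max_left _ _)⟩

/-- the static part at a fixed time -/
theorem static_part (h : S_STAT) (hp : BInf p pt t1 t2) (hq : BInf q qt t1 t2)
    (hU : HInf U t1 t2) (hUt : HInf Ut t1 t2) (he : HInf e t1 t2) (het : HInf et t1 t2)
    {t : ℝ} (ht : t ∈ Icc t1 t2) :
    Integrable (tInt p pt q qt U Ut e et t) ∧
    (∫ x, tInt p pt q qt U Ut e et t x) = ∫ x, Dt p pt q qt U Ut e et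
      (fun t x => iteratedDeriv 1 (e t) x) (fun t x => iteratedDeriv 1 (et t) x) t x := by
  have je := isJet_of_smooth (he.smooth t ht)
  have jet := isJet_of_smooth (het.smooth t ht)
  have jU := isJet_of_smooth (hU.smooth t ht)
  have jp := isJet_of_smooth (hp.smooth t ht)
  have jq := isJet_of_smooth (hq.smooth t ht)
  have z0 : ∀ f : ℝ → ℝ, iteratedDeriv 0 f = f := fun f => iteratedDeriv_zero
  have z1 : ∀ f : ℝ → ℝ, iteratedDeriv 1 f = deriv f := fun f => iteratedDeriv_one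
  have bU0 : BC t1 t2 U := by simpa only [z0] using bc_of_hinf hU 0
  have bUt0 : BC t1 t2 Ut := by simpa only [z0] using bc_of_hinf hUt 0
  have be0 : BC t1 t2 e := by simpa only [z0] using bc_of_hinf he 0
  have bU1 := bc_of_hinf hU 1
  have bU2 := bc_of_hinf hU 2
  have be1 := bc_of_hinf he 1
  have bq0 : BC t1 t2 q := by simpa only [z0] using bc_of_binf hq 0
  have bpt := bct_of_binf hp
  have bqt := bct_of_binf hq
  have me : ∀ k, MemLp (iteratedDeriv k (e t)) 2 := fun k => he.memLp k t ht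
  have me0 : MemLp (e t) 2 := by simpa only [z0] using me 0
  have met0 : MemLp (et t) 2 := by simpa only [z0] using het.memLp 0 t ht
  -- formulas for the source
  have hS0 : ∀ x, srcS U e et t x = et t x + iteratedDeriv 3 (e t) x +
      nGx (U t x) (iteratedDeriv 1 (U t) x) (e t x) (iteratedDeriv 1 (e t) x) := by
    intro x
    have h1 := (hasDerivAt_nG je jU x).deriv
    simp only [z0] at h1
    unfold srcS
    rw [h1]
  have hS1 : ∀ x, deriv (srcS U e et t) x = iteratedDeriv 1 (et t) x + iteratedDeriv 4 (e t) x +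
      nGxx (U t x) (iteratedDeriv 1 (U t) x) (iteratedDeriv 2 (U t) x) (e t x)
        (iteratedDeriv 1 (e t) x) (iteratedDeriv 2 (e t) x) := by
    intro x
    have h1 := hasDerivAt_nGx je jU x
    have h2 := jet 0 x
    have h3 := je 3 x
    simp only [z0, zero_add, Nat.reduceAdd] at h1 h2 h3
    have h4 := (h2.fun_add h3).fun_add h1
    have h5 : srcS U e et t = fun y => et t y + iteratedDeriv 3 (e t) y +
        nGx (U t y) (iteratedDeriv 1 (U t) y) (e t y) (iteratedDeriv 1 (e t) y) :=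
      funext hS0
    rw [h5]
    exact h4.deriv
  have mS0 : MemLp (srcS U e et t) 2 := by
    have h5 : srcS U e et t = fun y => (et t y + iteratedDeriv 3 (e t) y) +
        ((5 * (U t y + e t y) ^ 4) * iteratedDeriv 1 (e t) y +
        (5 * iteratedDeriv 1 (U t) y * (4 * U t y ^ 3 + 6 * U t y ^ 2 * e t y
          + 4 * U t y * e t y ^ 2 + e t y ^ 3)) * e t y) := by
      funext y
      rw [hS0 y]
      unfold nGx
      ring
    have c1 : BC t1 t2 (fun t y => 5 * (U t y + e t y) ^ 4) :=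
      (BC.const 5).mul ((bU0.add be0).pow 4)
    have c2 : BC t1 t2 (fun t y => 5 * iteratedDeriv 1 (U t) y * (4 * U t y ^ 3
        + 6 * U t y ^ 2 * e t y + 4 * U t y * e t y ^ 2 + e t y ^ 3)) :=
      ((BC.const 5).mul bU1).mul (((((BC.const 4).mul (bU0.pow 3)).add
        (((BC.const 6).mul (bU0.pow 2)).mul be0)).add
        (((BC.const 4).mul bU0).mul (be0.pow 2))).add (be0.pow 3))
    rw [h5]
    exact (met0.add (me 3)).add
      ((mem3 (f := fun t x => iteratedDeriv 1 (e t) x) c1 ht (me 1)).add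
        (mem3 (f := e) c2 ht me0))
  have mS1 : MemLp (deriv (srcS U e et t)) 2 := by
    have h5 : deriv (srcS U e et t) = fun y => (iteratedDeriv 1 (et t) y
        + iteratedDeriv 4 (e t) y) +
        (((20 * iteratedDeriv 1 (U t) y ^ 2 * (3 * U t y ^ 2 + 3 * U t y * e t y + e t y ^ 2)
          + 5 * iteratedDeriv 2 (U t) y * (4 * U t y ^ 3 + 6 * U t y ^ 2 * e t y
          + 4 * U t y * e t y ^ 2 + e t y ^ 3)) * e t y +
        (20 * (U t y + e t y) ^ 3 * (2 * iteratedDeriv 1 (U t) y + iteratedDeriv 1 (e t) y))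
          * iteratedDeriv 1 (e t) y) +
        (5 * (U t y + e t y) ^ 4) * iteratedDeriv 2 (e t) y) := by
      funext y
      rw [hS1 y]
      unfold nGxx
      ring
    have c1 : BC t1 t2 (fun t y => 5 * (U t y + e t y) ^ 4) :=
      (BC.const 5).mul ((bU0.add be0).pow 4)
    have c2 : BC t1 t2 (fun t y => 20 * iteratedDeriv 1 (U t) y ^ 2 *
        (3 * U t y ^ 2 + 3 * U t y * e t y + e t y ^ 2)
          + 5 * iteratedDeriv 2 (U t) y * (4 * U t y ^ 3 + 6 * U t y ^ 2 * e t y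
          + 4 * U t y * e t y ^ 2 + e t y ^ 3)) :=
      (((BC.const 20).mul (bU1.pow 2)).mul ((((BC.const 3).mul (bU0.pow 2)).add
        (((BC.const 3).mul bU0).mul be0)).add (be0.pow 2))).add
      (((BC.const 5).mul bU2).mul (((((BC.const 4).mul (bU0.pow 3)).add
        (((BC.const 6).mul (bU0.pow 2)).mul be0)).add
        (((BC.const 4).mul bU0).mul (be0.pow 2))).add (be0.pow 3)))
    have c3 : BC t1 t2 (fun t y => 20 * (U t y + e t y) ^ 3 *
        (2 * iteratedDeriv 1 (U t) y + iteratedDeriv 1 (e t) y)) :=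
      ((BC.const 20).mul ((bU0.add be0).pow 3)).mul (((BC.const 2).mul bU1).add be1)
    rw [h5]
    exact ((het.memLp 1 t ht).add (me 4)).add
      (((mem3 (f := e) c2 ht me0).add
        (mem3 (f := fun t x => iteratedDeriv 1 (e t) x) c3 ht (me 1))).add
        (mem3 (f := fun t x => iteratedDeriv 2 (e t) x) c1 ht (me 2)))
  obtain ⟨i1, i2, i3⟩ := h (fun k => iteratedDeriv k (e t)) (fun k => iteratedDeriv k (U t))
    (fun k => iteratedDeriv k (p t)) (fun k => iteratedDeriv k (q t))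
    ⟨je, fun k => (me k).integrable_sq⟩
    ⟨jU, fun k => by
      obtain ⟨C, _, hC⟩ := (bc_of_hinf hU k).bd
      exact ⟨C, fun x => hC t ht x⟩⟩
    ⟨jp, fun k => by
      obtain ⟨C, hC⟩ := hp.bound k
      exact ⟨C, fun x => hC t ht x⟩⟩
    ⟨jq, fun k => by
      obtain ⟨C, hC⟩ := hq.bound k
      exact ⟨C, fun x => hC t ht x⟩⟩
    (srcS U e et t) (deriv (srcS U e et t)) mS0 mS1
  simp only [z0] at i1 i2 i3
  -- the rest
  have iR : Integrable (fun x => pt t x * e t x ^ 2 + qt t x * (iteratedDeriv 1 (e t) x ^ 2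
      - nGG (U t x) (e t x) / 3) - 2 * q t x * nG2 (U t x) (e t x) * Ut t x) := by
    have c : BC t1 t2 (fun t x => pt t x - qt t x * kGG (U t x) (e t x) * (1 / 3)
        - 2 * q t x * kG2 (U t x) (e t x) * Ut t x) :=
      (bpt.sub ((bqt.mul (bc_kGG bU0 be0)).mul (BC.const (1 / 3)))).sub
        ((((BC.const 2).mul bq0).mul (bc_kG2 bU0 be0)).mul bUt0)
    have hi := (int3 (f := e) (g := e) c ht me0 me0).add
      (int3 (f := fun t x => iteratedDeriv 1 (e t) x)
        (g := fun t x => iteratedDeriv 1 (e t) x) bqt ht (me 1) (me 1))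
    refine hi.congr (Eventually.of_forall fun x => ?_)
    simp only [Pi.add_apply]
    rw [nGG_eq, nG2_eq]
    ring
  have hT : tInt p pt q qt U Ut e et t = fun x => rhsD (p t x) (iteratedDeriv 1 (p t) x)
      (iteratedDeriv 3 (p t) x) (q t x) (iteratedDeriv 1 (q t) x)
      (iteratedDeriv 2 (q t) x) (iteratedDeriv 3 (q t) x) (U t x) (iteratedDeriv 1 (U t) x)
      (e t x) (iteratedDeriv 1 (e t) x) (iteratedDeriv 2 (e t) x) (srcS U e et t x)
      (deriv (srcS U e et t) x)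
      + (pt t x * e t x ^ 2 + qt t x * (iteratedDeriv 1 (e t) x ^ 2
      - nGG (U t x) (e t x) / 3) - 2 * q t x * nG2 (U t x) (e t x) * Ut t x) := by
    funext x
    simp only [z1]
    unfold tInt
    ring
  have hD : Dt p pt q qt U Ut e et
      (fun t x => iteratedDeriv 1 (e t) x) (fun t x => iteratedDeriv 1 (et t) x) t = fun x =>
      lhsD (p t x) (q t x) (U t x) (iteratedDeriv 1 (U t) x) (iteratedDeriv 2 (U t) x)
      (e t x) (iteratedDeriv 1 (e t) x) (iteratedDeriv 2 (e t) x) (iteratedDeriv 3 (e t) x)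
      (iteratedDeriv 4 (e t) x) (srcS U e et t x) (deriv (srcS U e et t) x)
      + (pt t x * e t x ^ 2 + qt t x * (iteratedDeriv 1 (e t) x ^ 2
      - nGG (U t x) (e t x) / 3) - 2 * q t x * nG2 (U t x) (e t x) * Ut t x) := by
    funext x
    unfold Dt lhsD
    rw [hS0 x, hS1 x]
    ring
  refine ⟨?_, ?_⟩
  · rw [hT]
    exact i2.add iR
  · rw [hT, hD, integral_add i2 iR, integral_add i1 iR, i3]

/-- **TIME.** -/
theorem time (h : S_STAT) : S_TIME := by
  intro t1 t2 p pt q qt U Ut e et h12 hp hq hU hUt dU he het de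
  have z0 : ∀ f : ℝ → ℝ, iteratedDeriv 0 f = f := fun f => iteratedDeriv_zero
  have z1 : ∀ f : ℝ → ℝ, iteratedDeriv 1 f = deriv f := fun f => iteratedDeriv_one
  have bU0 : BC t1 t2 U := by simpa only [z0] using bc_of_hinf hU 0
  have bUt0 : BC t1 t2 Ut := by simpa only [z0] using bc_of_hinf hUt 0
  have bq0 : BC t1 t2 q := by simpa only [z0] using bc_of_binf hq 0
  have bp0 : BC t1 t2 p := by simpa only [z0] using bc_of_binf hp 0
  have le0 : L2F t1 t2 e := by simpa only [z0] using l2f_of_hinf he 0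
  have let0 : L2F t1 t2 et := by simpa only [z0] using l2f_of_hinf het 0
  obtain ⟨_, c2, c3, c4⟩ := core (p := p) (pt := pt) (q := q) (qt := qt) (U := U) (Ut := Ut)
    (e := e) (et := et) (e1 := fun t x => iteratedDeriv 1 (e t) x)
    (e1t := fun t x => iteratedDeriv 1 (et t) x) h12 bp0 (bct_of_binf hp) bq0 (bct_of_binf hq)
    bU0 bUt0 le0 let0 (l2f_of_hinf he 1) (l2f_of_hinf het 1) hp.dt hq.dt
    (by simpa only [z0] using dU 0) (by simpa only [z0] using de 0) (de 1)
  have hst := fun t (ht : t ∈ Icc t1 t2) => static_part h hp hq hU hUt he het ht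
  have hEq : ∀ t ∈ Icc t1 t2, (∫ x, Dt p pt q qt U Ut e et
      (fun t x => iteratedDeriv 1 (e t) x) (fun t x => iteratedDeriv 1 (et t) x) t x) =
      ∫ x, tInt p pt q qt U Ut e et t x := fun t ht => (hst t ht).2.symm
  refine ⟨fun t ht => (hst t ht).1, ?_, ?_, ?_⟩
  · intro t ht
    have := c2 t ht
    simpa only [z1] using this
  · refine c3.congr ?_
    intro t ht
    rw [uIoc_of_le h12] at ht
    exact hEq t (Ioc_subset_Icc_self ht)
  · have e1 : (∫ t in t1..t2, ∫ x, tInt p pt q qt U Ut e et t x) =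
        ∫ t in t1..t2, ∫ x, Dt p pt q qt U Ut e et
      (fun t x => iteratedDeriv 1 (e t) x) (fun t x => iteratedDeriv 1 (et t) x) t x := by
      apply intervalIntegral.integral_congr
      intro t ht
      rw [uIcc_of_le h12] at ht
      exact (hEq t ht).symm
    rw [e1, ← c4]
    unfold fun2
    simp only [z1]

end

end Pool.Agent.Helper75.KV
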