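import Pool.Agent.Helper33.KV.GoalsC2
import Pool.Agent.Helper38.KV.CALL

/-!
# Packet KV-CALLU (helper33): coherent inner expansions (adapted from `Helper38/KV/CALL.lean`)
-/

namespace Pool.Agent.Helper75.KV

open Real MeasureTheory Filter Topology Pool.Agent.Helper38.KV Pool.Agent.Helper41.KV
open Pool.Agent.Helper41.KV.H38 Pool.Agent.Helper33.KV

theorem callu (hQ : S_QF) (hE : S_ECL1) (hS : S_SOLVEP) (hM : S_MCL1) (hM2 : S_MCL2) (hB : S_BEXP)
    (hP : Pool.Agent.Helper41.KV.S_PAIR) (hL : S_LSOLVE) (hC : S_CSTEP) : S_CALLU := by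
  intro α R P h0 h1 hRP FamA hG1 hGl hG2 hG3 hG5
  set Fam : (ℕ → Polynomial ℝ) → F3 := FamA 3 3 with hFam
  have hF1 : ∀ p, Fam p ∈ MP 1 := fun p => hG1 3 3 p le_rfl le_rfl
  have hFl : ∀ p, (∀ j, ∃ c : ℝ, p j = Polynomial.C c) → ∀ r l y, Fam p r l y = Fam p r 0 y :=
    fun p hp => hGl 3 3 p le_rfl le_rfl hp
  have hF2 : ∀ p, p 0 = Polynomial.C (kOne α) → (∀ j, 1 ≤ j → p j = 0) →
      Fam p - lif 1 (fun _ _ => kOne α) - lif 2 (fun _ y => kOne α * (α - 1/2) * y) ∈ MP 3 :=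
    fun p hp hp' => hG2 3 3 p le_rfl le_rfl hp hp'
  have hF3 : ∀ p j q, 1 ≤ j → j < 3 → p j = 0 →
      Fam (Function.update p j q) - Fam p - lif (j + 1) (fun l _ => q.eval l)
        - lif (j + 2) (fun l y => y * (q.derivative.eval l + (α - 1/2 + 2 * α * j) * q.eval l))
          ∈ MP (j + 3) := fun p j q hj hj' hp => hG3 3 3 p j q le_rfl le_rfl hj hj' hp
  obtain ⟨hw1T, hPa, hPb, -, -, hPe⟩ := hP α R P hRP
  have mMT := hM.1
  have mMP := hM.2.1
  have lifT := hM.2.2.2.2.2.2.2.2.2.2.2.2.2.1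
  have lifP := hM.2.2.2.2.2.2.2.2.2.2.2.2.2.2.1
  have hRT : IsT R := T_of_E hE hRP.R_E
  have hRPo : IsP R := E_P hE hRP.R_E
  -- step 0
  set p0 : ℕ → Polynomial ℝ := fun j => if j = 0 then Polynomial.C (kOne α) else 0 with hp0
  have hp00 : p0 0 = Polynomial.C (kOne α) := by simp [hp0]
  have hp0z : ∀ j, 1 ≤ j → p0 j = 0 := by
    intro j hj
    simp only [hp0]
    rw [if_neg (by omega)]
  have hp0c : ∀ j, ∃ c : ℝ, p0 j = Polynomial.C c := by
    intro j
    by_cases hj : j = 0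
    · exact ⟨kOne α, by simp [hp0, hj]⟩
    · exact ⟨0, by simp [hp0, hj]⟩
  have hF0 := hF2 p0 hp00 hp0z
  have hF0k : Fam p0 - lif 1 (fun _ _ => kOne α) ∈ MP 2 := by
    have h := (MP 2).add_mem (mMP 2 3 (by omega) hF0) (lifP 2 _ (LP_cy (kOne α * (α - 1/2))))
    have he : Fam p0 - lif 1 (fun _ _ => kOne α) - lif 2 (fun _ y => kOne α * (α - 1/2) * y)
        + lif 2 (fun _ y => kOne α * (α - 1/2) * y) = Fam p0 - lif 1 (fun _ _ => kOne α) := by abel
    rwa [he] at h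
  set w0 : F3 := lif 1 (fun _ y => wOne α R P y) with hw0
  have hw0m : w0 ∈ MT 1 := lifT 1 _ (LT_const hw1T)
  have hw0k : w0 - lif 1 (fun _ y => wOne α R P y) ∈ MT 2 := by
    rw [hw0, sub_self]; exact (MT 2).zero_mem
  have hB0 : Bk α (Fam p0) w0 - lif (1 + 1) (fun _ y => E2 α R P y) ∈ MT (1 + 2) := by
    have h := hB α (kOne α) (kOne α * (α - 1/2)) (wOne α R P) (Fam p0) hw1T hF0
    have hz : lif 1 (fun _ y => deriv (fun y' => 5 * Q y' ^ 4 * kOne α - Lop (wOne α R P) y') y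
        - (2 * α + 1) * Lam Q y) = 0 := by
      funext r l y
      simp only [lif, hPa]
      simp
    rw [hz, sub_zero] at h
    exact h
  have hE2T := E2_tail hQ hE (α := α) hRP
  have hE2i : (∫ y, E2 α R P y * Q y) = 0 := hPb
  obtain ⟨q2, P1, ω20, hq2, hω20, hP1, hqP, -⟩ := hS _ _ hE2T hE2i
  obtain ⟨b, hb⟩ := poly_lin hP1 hqP
  have hω20T : IsT ω20 := ⟨q2, hq2⟩
  have hω20P : IsP ω20 := tail_P hE hq2
  -- step j = 1
  obtain ⟨q1, hq1, hq1c⟩ := hC α R P h0 h1 hRP 1 (Fam p0) w0 (fun _ y => E2 α R P y) (fun _ y => ω20 y)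
    le_rfl (hF1 p0) hw0m hF0k hw0k (LT_const ⟨_, hE2T⟩) (LT_const hω20T) hB0 (fun _ => hE2i)
    (fun _ y => (hω20 y).deriv)
  have hF0l := hFl p0 hp0c
  obtain ⟨c1, hc1⟩ := hq1c (by push_cast; linarith) hF0l (fun r l y => rfl) (fun l y => rfl)
  subst hc1
  have hδ1 := hF3 p0 1 (Polynomial.C c1) le_rfl (by omega) (hp0z 1 le_rfl)
  obtain ⟨e3', he3', hint3, hBk3⟩ := step hq1 hδ1
  set p1 := Function.update p0 1 (Polynomial.C c1) with hp1
  set w1' := w0 + lif (1 + 1) (fun l y => ω20 y + (Polynomial.C c1).eval l * R y) with hw1'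
  have hp1c : ∀ j, ∃ c : ℝ, p1 j = Polynomial.C c := by
    intro j
    by_cases hj : j = 1
    · subst hj; exact ⟨c1, by simp [hp1]⟩
    · rw [hp1, Function.update_of_ne hj]; exact hp0c j
  have hF1l := hFl p1 hp1c
  have hFd1 := Fam_diff hM hδ1
  set ω2 : ℝ → ℝ := fun y => ω20 y + c1 * R y with hω2
  have hω2tail : HasTail (Polynomial.C b - Polynomial.C (2 * kOne α * (α - 1/2)) * Polynomial.X) ω2 := by
    have h := tail_E hE hq2 (E_smul hE c1 hRP.R_E)
    have he : q2 = Polynomial.C b - Polynomial.C (2 * kOne α * (α - 1/2)) * Polynomial.X := by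
      rw [hb, Polynomial.C_neg]; ring
    rw [he] at h
    exact h
  have hω2T : IsT ω2 := ⟨_, hω2tail⟩
  have hw1eq : w1' = w0 + lif 2 (fun _ y => ω2 y) := by
    rw [hw1']
    congr 1
    funext r l y
    simp [lif, hω2]
  have hw1l : ∀ r l y, w1' r l y = w1' r 0 y := by
    intro r l y
    rw [hw1eq]
    rfl
  have hw1m : w1' ∈ MT 1 := by
    rw [hw1eq]
    exact (MT 1).add_mem hw0m (mMT 1 2 (by omega) (lifT 2 _ (LT_const hω2T)))
  have hw1k : w1' - lif 1 (fun _ y => wOne α R P y) ∈ MT 2 := by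
    have he : w1' - lif 1 (fun _ y => wOne α R P y) = lif 2 (fun _ y => ω2 y) := by
      rw [hw1eq, hw0]; abel
    rw [he]; exact lifT 2 _ (LT_const hω2T)
  have hF1k : Fam p1 - lif 1 (fun _ _ => kOne α) ∈ MP 2 := by
    have h := (MP 2).add_mem hFd1 hF0k
    have he : Fam p1 - Fam p0 + (Fam p0 - lif 1 (fun _ _ => kOne α))
        = Fam p1 - lif 1 (fun _ _ => kOne α) := by abel
    rwa [he] at h
  -- the equation of v_2
  have hv2 := hPe c1 ω2 hω2T (by
    intro y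
    have hl : Lop ω2 = fun y => Lop ω20 y + c1 * (5 * Q y ^ 4) := by
      funext z
      rw [hω2, lop_add hE hω20P hRPo c1 z, lop_R hRP z]
    have hd4 : DifferentiableAt ℝ (fun y' => 5 * Q y' ^ 4) y :=
      ((Q_d hQ y).differentiableAt.pow 4).const_mul 5
    rw [hl]
    have h := ((hω20 y).add (hd4.hasDerivAt.const_mul c1)).deriv
    exact h)
  -- step j = 2
  have he3l : ∀ l y, e3' l y = e3' 0 y :=
    MT_indep hM2 (m := 3) (Bk_indep α hF1l hw1l) hBk3
  obtain ⟨q3, P3, ω30, hq3, hω30, -, -, -⟩ : ∃ (q P1 : Polynomial ℝ) (w : ℝ → ℝ), HasTail q w ∧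
      (∀ y, HasDerivAt (Lop w) (e3' 0 y) y) ∧ True ∧ True ∧ True := by
    obtain ⟨qe, hqe⟩ := LT_fix hE he3' 0
    obtain ⟨q, P1, w, h1, h2, -⟩ := hS qe (e3' 0) hqe (hint3 0)
    exact ⟨q, P1, w, h1, h2, trivial, trivial, trivial⟩
  have hω30T : IsT ω30 := ⟨q3, hq3⟩
  obtain ⟨qq, hqq, hqqc⟩ := hC α R P h0 h1 hRP 2 (Fam p1) w1' e3' (fun _ y => ω30 y)
    (by omega) (hF1 p1) hw1m hF1k hw1k he3' (LT_const hω30T) hBk3 hint3
    (fun l y => by rw [he3l l y]; exact (hω30 y).deriv)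
  obtain ⟨c2, hc2⟩ := hqqc (by push_cast; intro h; linarith) hF1l hw1l (fun l y => rfl)
  subst hc2
  have hp1z : ∀ j, 2 ≤ j → p1 j = 0 := by
    intro j hj
    rw [hp1, Function.update_of_ne (by omega)]; exact hp0z j (by omega)
  have hδ2 := hF3 p1 2 (Polynomial.C c2) (by omega) (by omega) (hp1z 2 le_rfl)
  set p2 := Function.update p1 2 (Polynomial.C c2) with hp2
  set w2' := w1' + lif (2 + 1) (fun l y => ω30 y + (Polynomial.C c2).eval l * R y) with hw2'
  have hFd2 := Fam_diff hM hδ2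
  have hp2c : ∀ j, ∃ c : ℝ, p2 j = Polynomial.C c := by
    intro j
    by_cases hj : j = 2
    · subst hj; exact ⟨c2, by simp [hp2]⟩
    · rw [hp2, Function.update_of_ne hj]; exact hp1c j
  have hF2l := hFl p2 hp2c
  set ω3 : ℝ → ℝ := fun y => ω30 y + c2 * R y with hω3
  have hω3T : IsT ω3 := T_add hE hω30T (T_smul hE c2 hRT)
  have hw2eq : w2' = lif 1 (fun _ y => wOne α R P y) + lif 2 (fun _ y => ω2 y) + lif 3 (fun _ y => ω3 y) := by
    rw [hw2', hw1eq, hw0]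
    congr 1
    funext r l y
    simp [lif, hω3]
  have hw2m : w2' ∈ MT 1 := by
    rw [hw2eq]
    exact (MT 1).add_mem ((MT 1).add_mem hw0m (mMT 1 2 (by omega) (lifT 2 _ (LT_const hω2T))))
      (mMT 1 3 (by omega) (lifT 3 _ (LT_const hω3T)))
  have hw2k : w2' - lif 1 (fun _ y => wOne α R P y) ∈ MT 2 := by
    have he : w2' - lif 1 (fun _ y => wOne α R P y) = lif 2 (fun _ y => ω2 y) + lif 3 (fun _ y => ω3 y) := by
      rw [hw2eq]; abel
    rw [he]
    exact (MT 2).add_mem (lifT 2 _ (LT_const hω2T)) (mMT 2 3 (by omega) (lifT 3 _ (LT_const hω3T)))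
  have hF2k : Fam p2 - lif 1 (fun _ _ => kOne α) ∈ MP 2 := by
    have h := (MP 2).add_mem (mMP 2 3 (by omega) hFd2) hF1k
    have he : Fam p2 - Fam p1 + (Fam p1 - lif 1 (fun _ _ => kOne α))
        = Fam p2 - lif 1 (fun _ _ => kOne α) := by abel
    rwa [he] at h
  -- the third order coefficient of the family
  have hA3 : Fam p2 - lif 1 (fun _ _ => kOne α) - lif 2 (fun _ y => kOne α * (α - 1/2) * y + c1) ∈ MP 3 := by
    have ha : lif (1 + 2) (fun l y => y * ((Polynomial.C c1).derivative.eval l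
        + (α - 1/2 + 2 * α * ((1 : ℕ) : ℝ)) * (Polynomial.C c1).eval l)) ∈ MP 3 := lifP 3 _ (LP_yq _ _)
    have h := (MP 3).add_mem ((MP 3).add_mem ((MP 3).add_mem hFd2 (mMP 3 4 (by omega) hδ1)) ha) hF0
    have he : Fam p2 - Fam p1 + (Fam p1 - Fam p0 - lif (1 + 1) (fun l _ => (Polynomial.C c1).eval l)
        - lif (1 + 2) (fun l y => y * ((Polynomial.C c1).derivative.eval l
          + (α - 1/2 + 2 * α * ((1 : ℕ) : ℝ)) * (Polynomial.C c1).eval l)))
        + lif (1 + 2) (fun l y => y * ((Polynomial.C c1).derivative.eval l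
          + (α - 1/2 + 2 * α * ((1 : ℕ) : ℝ)) * (Polynomial.C c1).eval l))
        + (Fam p0 - lif 1 (fun _ _ => kOne α) - lif 2 (fun _ y => kOne α * (α - 1/2) * y))
        = Fam p2 - lif 1 (fun _ _ => kOne α) - lif 2 (fun _ y => kOne α * (α - 1/2) * y + c1) := by
      have h2 : lif 2 (fun _ y => kOne α * (α - 1/2) * y + c1)
          = lif (1 + 1) (fun l _ => (Polynomial.C c1).eval l)
            + lif 2 (fun _ y => kOne α * (α - 1/2) * y) := by
        funext r l y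
        simp [lif]
        ring
      rw [h2]; abel
    rwa [he] at h
  obtain ⟨e3, he3, hA4⟩ := hM2.2.1 3 _ hA3
  have he3l' : ∀ l y, e3 l y = e3 0 y := by
    refine MP_indep hM2 (m := 3) ?_ hA4
    intro r l y
    simp only [Pi.sub_apply, lif, hF2l r l y]
  obtain ⟨pe3, hpe3⟩ := LP_fix he3 0
  have he3eq : lif 3 e3 = lif 3 (fun _ y => pe3.eval y) := by
    funext r l y
    simp only [lif, he3l' l y, hpe3]
  rw [he3eq] at hA4
  -- iteration
  have hp2z : ∀ i, 3 ≤ i → p2 i = 0 := by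
    intro i hi
    rw [hp2, Function.update_of_ne (by omega)]; exact hp1z i (by omega)
  refine ⟨c1, b, ω2, ω3, pe3, hω2tail, hv2, hω3T, ?_⟩
  intro J n hJ hn
  have hd5 := hG5 J n p2 hJ hn hp2z
  obtain ⟨e4, he4, hint4, hBk4⟩ : ∃ e' ∈ Pool.Agent.Helper41.KV.LT, (∀ l, (∫ y, e' l y * Q y) = 0) ∧
      Bk α (FamA J n p2) w2' - lif (2 + 2) e' ∈ MT (2 + 3) := by
    obtain ⟨e', he', hint, hBB⟩ := hqq _ ((MP (2 + 3)).add_mem hd5 hδ2)
    refine ⟨e', he', hint, ?_⟩
    have he : Fam p1 + lif (2 + 1) (fun l _ => (Polynomial.C c2).eval l)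
        + lif (2 + 2) (fun l y => y * ((Polynomial.C c2).derivative.eval l
          + (α - 1/2 + 2 * α * ((2 : ℕ) : ℝ)) * (Polynomial.C c2).eval l))
        + ((FamA J n p2 - Fam p2) + (Fam p2 - Fam p1
          - lif (2 + 1) (fun l _ => (Polynomial.C c2).eval l)
          - lif (2 + 2) (fun l y => y * ((Polynomial.C c2).derivative.eval l
            + (α - 1/2 + 2 * α * ((2 : ℕ) : ℝ)) * (Polynomial.C c2).eval l))))
        = FamA J n p2 := by abel
    rw [he] at hBB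
    exact hBB
  have hG2k : FamA J n p2 - lif 1 (fun _ _ => kOne α) ∈ MP 2 := by
    have h := (MP 2).add_mem (mMP 2 5 (by omega) hd5) hF2k
    have he : FamA J n p2 - Fam p2 + (Fam p2 - lif 1 (fun _ _ => kOne α))
        = FamA J n p2 - lif 1 (fun _ _ => kOne α) := by abel
    rwa [he] at h
  have hst : St α (FamA J n) (FamA J n p2) w2' (Polynomial.C (kOne α)) (Polynomial.C c1) 3 p2 w2'
      e4 := by
    refine ⟨?_, ?_, hp2z, hw2m, ?_, ?_, he4, hint4, hBk4⟩
    · rw [hp2, Function.update_of_ne (by omega), hp1, Function.update_of_ne (by omega)]; exact hp00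
    · rw [hp2, Function.update_of_ne (by omega), hp1, Function.update_self]
    · rw [sub_self]; exact (MT 4).zero_mem
    · rw [sub_self]; exact (MP 4).zero_mem
  obtain ⟨n', hn'⟩ : ∃ n', J = 3 + n' := ⟨J - 3, by omega⟩
  obtain ⟨p, w, e, st⟩ := iterate hM hL hC h0 h1 hRP hRT (Fam := FamA J n)
    (fun p => hG1 J n p hJ hn) (fun p j q hj hj' hp => hG3 J n p j q hJ hn hj hj' hp)
    hG2k hw2k hst n' (by omega)
  rw [← hn'] at st
  refine ⟨p, w, st.p0, st.p1, st.pz, st.wm, ?_, ?_, ?_⟩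
  · have he : w - lif 1 (fun _ y => wOne α R P y) - lif 2 (fun _ y => ω2 y) - lif 3 (fun _ y => ω3 y)
        = w - w2' := by rw [hw2eq]; abel
    rw [he]; exact st.wd
  · have h := (MP 4).add_mem ((MP 4).add_mem st.Fd (mMP 4 5 (by omega) hd5)) hA4
    have he : FamA J n p - FamA J n p2 + (FamA J n p2 - Fam p2) + (Fam p2 - lif 1 (fun _ _ => kOne α)
        - lif 2 (fun _ y => kOne α * (α - 1/2) * y + c1) - lif 3 (fun _ y => pe3.eval y))
        = FamA J n p - lif 1 (fun _ _ => kOne α) - lif 2 (fun _ y => kOne α * (α - 1/2) * y + c1)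
          - lif 3 (fun _ y => pe3.eval y) := by abel
    rwa [he] at h
  · have h := (MT (J + 1)).add_mem (mMT (J + 1) (J + 2) (by omega) st.Bm) (lifT (J + 1) _ st.eL)
    have he : Bk α (FamA J n p) w - lif (J + 1) e + lif (J + 1) e = Bk α (FamA J n p) w := by abel
    rwa [he] at h

end Pool.Agent.Helper75.KV

namespace Pool.Agent.Helper33.KV

open Pool.Agent.Helper41.KV

theorem thm_CALLU (hQ : S_QF) (hE : S_ECL1) (_hE2 : S_ECL2) (hS : S_SOLVEP) (hM : S_MCL1)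
    (hM2 : S_MCL2) (hB : S_BEXP) (hP : Pool.Agent.Helper41.KV.S_PAIR) (hL : S_LSOLVE)
    (hC : S_CSTEP) : S_CALLU :=
  Pool.Agent.Helper75.KV.callu hQ hE hS hM hM2 hB hP hL hC

end Pool.Agent.Helper33.KV
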